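import Pool.Agent.Lib.MP_a785f2_an.CX3.Ibp

/-! The examples `u = (t^(1-β)/(1-β), t^(-γ) x / |x|)` with `t = 1 - log |x|`. -/

open MeasureTheory Metric Filter Topology Set

namespace Pool.Agent.Lib.MP_a785f2_an.CX3

variable {n : ℕ} {β γ : ℝ}

noncomputable def uu (n : ℕ) (β γ : ℝ) : Fin (n + 1) → E n → ℝ :=
  Fin.cons (fun x => u0 β ‖x‖) (fun j x => H γ ‖x‖ * x j)

noncomputable def GG (n : ℕ) (β γ : ℝ) : Fin (n + 1) → Fin n → E n → ℝ :=
  Fin.cons (fun α x => P β ‖x‖ * x α) (fun j α x => H γ ‖x‖ * kd j α + K γ ‖x‖ * (x j * x α))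

noncomputable def cc (n : ℕ) (β γ : ℝ) (α j : Fin n) (x : E n) : ℝ :=
  ca n β γ ‖x‖ * (x j * x α) + cb n β γ ‖x‖ * kd j α

noncomputable def Om (n : ℕ) (β γ : ℝ) (α : Fin n) : Fin (n + 1) → Fin (n + 1) → E n → ℝ :=
  Fin.cons (Fin.cons (fun _ => 0) (fun j => cc n β γ α j))
    (fun i => Fin.cons (fun x => -cc n β γ α i x) (fun _ _ => 0))

lemma sum_GG_sq (hn : 2 ≤ n) {x : E n} (hx : x ∈ U n) :
    ∑ i, ∑ α, GG n β γ i α x ^ 2 = rho n β γ ‖x‖ ^ 2 := by
  rw [← grad_sq hn β γ (U_pos hx) hx.2.le, Fin.sum_univ_succ]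
  simp only [GG, Fin.cons_zero, Fin.cons_succ]
  congr 1
  · simp only [mul_pow, ← Finset.mul_sum, sum_sq]
  · have := sum_bil x (K γ ‖x‖) (H γ ‖x‖) (H γ ‖x‖) (K γ ‖x‖)
    have h2 : ∀ j α, (H γ ‖x‖ * kd j α + K γ ‖x‖ * (x j * x α)) ^ 2 =
        (K γ ‖x‖ * (x j * x α) + H γ ‖x‖ * kd j α) * (H γ ‖x‖ * kd j α + K γ ‖x‖ * (x j * x α)) := by
      intro j α; ring
    simp only [h2, this]
    ring

lemma gradNorm_GG (hn : 2 ≤ n) {x : E n} (hx : x ∈ U n) : gradNorm (GG n β γ) x = rho n β γ ‖x‖ := by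
  unfold gradNorm
  rw [sum_GG_sq hn hx, Real.sqrt_sq (rho_pos hn β γ (U_pos hx) hx.2.le).le]

lemma abs_GG_le_rho (hn : 2 ≤ n) {x : E n} (hx : x ∈ U n) (i : Fin (n + 1)) (α : Fin n) :
    |GG n β γ i α x| ≤ rho n β γ ‖x‖ := by
  apply abs_le_of_sq_le_sq' _ (rho_pos hn β γ (U_pos hx) hx.2.le).le |> fun h => abs_le.mpr h
  rw [← sum_GG_sq hn hx]
  calc GG n β γ i α x ^ 2 ≤ ∑ α, GG n β γ i α x ^ 2 :=
        Finset.single_le_sum (f := fun α => GG n β γ i α x ^ 2) (fun _ _ => sq_nonneg _)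
          (Finset.mem_univ α)
    _ ≤ _ := Finset.single_le_sum (f := fun i => ∑ α, GG n β γ i α x ^ 2)
          (fun _ _ => Finset.sum_nonneg fun _ _ => sq_nonneg _) (Finset.mem_univ i)

lemma contOn_uu (hb : β < 1) (i : Fin (n + 1)) : ContinuousOn (uu n β γ i) (U n) := by
  refine Fin.cases ?_ (fun j => ?_) i
  · simp only [uu, Fin.cons_zero]
    exact contOn_rad fun r h0 h1 => (hasDerivAt_u0 hb h0 h1).continuousAt
  · simp only [uu, Fin.cons_succ]
    exact (contOn_rad fun r h0 h1 => (hasDerivAt_H γ h0 h1).continuousAt).mul (contOn_coord j)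

lemma contOn_GG (i : Fin (n + 1)) (α : Fin n) : ContinuousOn (GG n β γ i α) (U n) := by
  refine Fin.cases ?_ (fun j => ?_) i
  · simp only [GG, Fin.cons_zero]
    exact (contOn_rad fun r h0 h1 => (hasDerivAt_P β h0 h1).continuousAt).mul (contOn_coord α)
  · simp only [GG, Fin.cons_succ]
    exact ((contOn_rad fun r h0 h1 => (hasDerivAt_H γ h0 h1).continuousAt).mul
      continuousOn_const).add ((contOn_rad fun r h0 h1 => (hasDerivAt_K γ h0 h1).continuousAt).mul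
        ((contOn_coord j).mul (contOn_coord α)))

lemma contOn_cc (hn : 2 ≤ n) (α j : Fin n) : ContinuousOn (cc n β γ α j) (U n) := by
  unfold cc
  exact ((contOn_rad fun r h0 h1 => continuousAt_ca hn β γ h0 h1).mul
    ((contOn_coord j).mul (contOn_coord α))).add
    ((contOn_rad fun r h0 h1 => continuousAt_cb hn β γ h0 h1).mul continuousOn_const)

lemma contOn_Om (hn : 2 ≤ n) (α : Fin n) (i j : Fin (n + 1)) :
    ContinuousOn (Om n β γ α i j) (U n) := by
  refine Fin.cases ?_ (fun i => ?_) i <;> refine Fin.cases ?_ (fun j => ?_) j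
  · simp only [Om, Fin.cons_zero]; exact continuousOn_const
  · simp only [Om, Fin.cons_zero, Fin.cons_succ]; exact contOn_cc hn α j
  · simp only [Om, Fin.cons_zero, Fin.cons_succ]; exact (contOn_cc hn α i).neg
  · simp only [Om, Fin.cons_succ]; exact continuousOn_const

lemma abs_cc_le (p : Par n β γ) (α j : Fin n) {x : E n} (hx : x ∈ U n) :
    |cc n β γ α j x| ≤ 10 * n * (pw β (tt ‖x‖) / ‖x‖) := by
  have h0 := U_pos hx
  have ht := one_le_tt h0 hx.2.le
  have h1 := abs_At_le p ht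
  have h2 := abs_bt_le p ht
  have hA : |ca n β γ ‖x‖ * (x j * x α)| ≤ 6 * n * (pw β (tt ‖x‖) / ‖x‖) := by
    have h3 : |At n β γ (tt ‖x‖) - bt n β γ (tt ‖x‖)| ≤ 6 * n * pw β (tt ‖x‖) :=
      (abs_sub _ _).trans (by linarith)
    have h4 : |x j * x α| ≤ ‖x‖ * ‖x‖ := by
      rw [abs_mul]
      exact mul_le_mul (abs_coord_le x j) (abs_coord_le x α) (abs_nonneg _) h0.le
    unfold ca
    rw [abs_mul, abs_div, abs_of_pos (by positivity : 0 < ‖x‖ ^ 3)]
    calc _ ≤ 6 * n * pw β (tt ‖x‖) / ‖x‖ ^ 3 * (‖x‖ * ‖x‖) :=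
          mul_le_mul (div_le_div_of_nonneg_right h3 (by positivity)) h4 (abs_nonneg _)
            (div_nonneg ((abs_nonneg _).trans h3) (by positivity))
      _ = _ := by field_simp
  have hB : |cb n β γ ‖x‖ * kd j α| ≤ 4 * n * (pw β (tt ‖x‖) / ‖x‖) := by
    rw [abs_mul]
    refine (mul_le_of_le_one_right (abs_nonneg _) (abs_kd_le j α)).trans ?_
    unfold cb
    rw [abs_div, abs_of_pos h0, ← mul_div_assoc]
    exact div_le_div_of_nonneg_right h2 h0.le
  unfold cc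
  exact (abs_add_le _ _).trans (by linarith)

lemma abs_Om_le (p : Par n β γ) (α : Fin n) (i j : Fin (n + 1)) {x : E n} (hx : x ∈ U n) :
    |Om n β γ α i j x| ≤ 10 * n * (pw β (tt ‖x‖) / ‖x‖) := by
  have h0 := U_pos hx
  have hs := pw_pos β (tt_pos h0 hx.2.le)
  refine Fin.cases ?_ (fun i => ?_) i <;> refine Fin.cases ?_ (fun j => ?_) j
  · simp only [Om, Fin.cons_zero, abs_zero]; positivity
  · simp only [Om, Fin.cons_zero, Fin.cons_succ]; exact abs_cc_le p α j hx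
  · simp only [Om, Fin.cons_zero, Fin.cons_succ, abs_neg]; exact abs_cc_le p α i hx
  · simp only [Om, Fin.cons_succ, abs_zero]; positivity

lemma Om_antisymm (α : Fin n) (i j : Fin (n + 1)) (x : E n) : Om n β γ α j i x = -Om n β γ α i j x := by
  refine Fin.cases ?_ (fun i => ?_) i <;> refine Fin.cases ?_ (fun j => ?_) j <;> simp [Om]

theorem isAntisymPotential (p : Par n β γ) : IsAntisymPotential (Om n β γ) :=
  ⟨fun α i j => memLp_of_pw (by have := p.n3; omega) p.nb (contOn_Om p.n2 α i j)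
      (fun _ hx => abs_Om_le p α i j hx),
    fun α i j => Eventually.of_forall (Om_antisymm α i j)⟩

theorem Om_le_grad (p : Par n β γ) :
    ∀ᵐ x ∂(ballMeasure n), ∀ α i j, |Om n β γ α i j x| ≤ 10 * n * gradNorm (GG n β γ) x := by
  filter_upwards [ae_mem_U (by have := p.n3; omega : 1 ≤ n)] with x hx α i j
  rw [gradNorm_GG p.n2 hx]
  exact (abs_Om_le p α i j hx).trans
    (mul_le_mul_of_nonneg_left (le_rho p (U_pos hx) hx.2.le) (by positivity))

lemma abs_uu_le (p : Par n β γ) (i : Fin (n + 1)) {x : E n} (hx : x ∈ U n) :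
    |uu n β γ i x| ≤ 2 * tt ‖x‖ := by
  have h0 := U_pos hx
  have ht := one_le_tt h0 hx.2.le
  refine Fin.cases ?_ (fun j => ?_) i
  · simp only [uu, Fin.cons_zero]; exact abs_u0_le p h0 hx.2.le
  · simp only [uu, Fin.cons_succ]
    have he := pw_pos γ (tt_pos h0 hx.2.le)
    have hH : 0 < H γ ‖x‖ := by unfold H; positivity
    rw [abs_mul, abs_of_pos hH]
    calc H γ ‖x‖ * |x j| ≤ H γ ‖x‖ * ‖x‖ := by gcongr; exact abs_coord_le x j
      _ = pw γ (tt ‖x‖) := by unfold H; field_simp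
      _ ≤ 1 := pw_le_one ht p.g0.le
      _ ≤ _ := by linarith

lemma r_tt_sq {r : ℝ} (h0 : 0 < r) (h1 : r ≤ 1) : r * tt r ^ 2 ≤ 2 := by
  have h := r_mul_s_pow_four h0 h1
  rwa [show s r ^ 4 = (s r ^ 2) ^ 2 by ring, s_sq h0 h1] at h

lemma tt_le (p : Par n β γ) {r : ℝ} (h0 : 0 < r) (h1 : r ≤ 1) :
    tt r ≤ 2 * (pw β (tt r) / r) := by
  have ht := one_le_tt h0 h1
  have h2 := pw_anti ht (by linarith [p.b2] : β ≤ 1)
  rw [pw_one (by linarith), div_le_iff₀ (by linarith)] at h2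
  have h3 := r_tt_sq h0 h1
  have h4 := pw_pos β (tt_pos h0 h1)
  rw [← mul_div_assoc, le_div_iff₀ h0]
  nlinarith [mul_le_mul_of_nonneg_left h2 (by positivity : 0 ≤ tt r * r)]

lemma hasLine_uu (hb : β < 1) (i : Fin (n + 1)) (α : Fin n) {x : E n} (hx : x ∈ U n) :
    HasLineDerivAt ℝ (uu n β γ i) (GG n β γ i α x) x (EuclideanSpace.single α 1) := by
  have h0 := U_pos hx
  refine Fin.cases ?_ (fun j => ?_) i
  · simp only [uu, GG, Fin.cons_zero]
    refine HasDerivAt.congr_deriv (hasLine_radial α hx.1 (hasDerivAt_u0 hb h0 hx.2.le)) ?_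
    field_simp
  · simp only [uu, GG, Fin.cons_succ]
    refine HasDerivAt.congr_deriv (hasLine_mul (hasLine_radial α hx.1 (hasDerivAt_H γ h0 hx.2.le))
      (hasLine_coord j α x)) ?_
    field_simp
    ring

lemma memLp_GG (p : Par n β γ) (i : Fin (n + 1)) (α : Fin n) :
    MemLp (GG n β γ i α) n (ballMeasure n) :=
  memLp_of_pw (by have := p.n3; omega) p.nb (contOn_GG i α) fun _ hx =>
    (abs_GG_le_rho p.n2 hx i α).trans (rho_le p (U_pos hx) hx.2.le)

theorem isW1n (p : Par n β γ) : IsW1n (uu n β γ) (GG n β γ) := by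
  have hn := p.n3
  have hn1 : 1 ≤ n := by omega
  have hb : β < 1 := by linarith [p.b2]
  have fin0 : IsFiniteMeasure (ballMeasure n) :=
    isFiniteMeasure_restrict.2 measure_ball_lt_top.ne
  refine ⟨fun i => ?_, memLp_GG p, fun i α φ hφ => ?_⟩
  · refine memLp_of_pw hn1 p.nb (C := 4) (contOn_uu hb i) fun x hx => ?_
    linarith [abs_uu_le p i hx, tt_le p (U_pos hx) hx.2.le]
  · have key := ibp hn1 (V := fun δ x => kd α δ * uu n β γ i x)
      (V' := fun δ x => kd α δ * GG n β γ i δ x) (D := GG n β γ i α) (φ := φ)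
      ?_ ?_ ?_ ?_ ?_ ((memLp_GG p i α).integrable (by exact_mod_cast hn1)) hφ
    · rw [← key]
      congr 1
      funext x
      simp only [mul_assoc, sum_kd_mul]
    · intro δ x hx
      exact HasDerivAt.congr_deriv
        (hasLine_mul (hasLine_const (kd α δ) x _) (hasLine_uu hb i δ hx)) (by simp)
    · exact fun δ => continuousOn_const.mul (contOn_uu hb i)
    · exact fun δ => continuousOn_const.mul (contOn_GG i δ)
    · intro x _
      exact sum_kd_mul α (fun δ => GG n β γ i δ x)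
    · intro δ
      refine integrable_of_pw hn1 one_lt_two (C := 8)
        ((continuousOn_const.mul (contOn_uu hb i)).div continuous_norm.continuousOn
          (fun _ hx => (U_pos hx).ne')) fun x hx => ?_
      have h0 := U_pos hx
      have ht := one_le_tt h0 hx.2.le
      have h2 := r_tt_sq h0 hx.2.le
      have h3 : pw 2 (tt ‖x‖) = 1 / tt ‖x‖ * (1 / tt ‖x‖) := by
        rw [← pw_one (by linarith), ← pw_add 1 1 (by linarith)]
        norm_num
      have h4 : |kd α δ * uu n β γ i x| ≤ 2 * tt ‖x‖ := by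
        rw [abs_mul]
        exact (mul_le_of_le_one_left (abs_nonneg _) (abs_kd_le α δ)).trans (abs_uu_le p i hx)
      have h5 : ‖x‖ ^ n ≤ ‖x‖ ^ 3 := pow_le_pow_of_le_one h0.le hx.2.le hn
      have h6 : (‖x‖ * tt ‖x‖ ^ 2) * (‖x‖ * tt ‖x‖) ≤ 2 * 2 := by
        refine mul_le_mul h2 (le_trans ?_ h2) (by positivity) zero_le_two
        exact mul_le_mul_of_nonneg_left (le_self_pow₀ ht two_ne_zero) h0.le
      rw [abs_div, abs_of_pos h0, h3]
      calc _ ≤ 2 * tt ‖x‖ / ‖x‖ := div_le_div_of_nonneg_right h4 h0.le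
        _ = 2 * ((‖x‖ * tt ‖x‖ ^ 2) * (‖x‖ * tt ‖x‖)) *
            (1 / tt ‖x‖ * (1 / tt ‖x‖) / ‖x‖ ^ 3) := by field_simp
        _ ≤ 2 * (2 * 2) * (1 / tt ‖x‖ * (1 / tt ‖x‖) / ‖x‖ ^ n) := by gcongr
        _ = _ := by ring

/-- the derivative of `w G i α` in the direction `α` -/
noncomputable def VV' (n : ℕ) (β γ : ℝ) : Fin (n + 1) → Fin n → E n → ℝ :=
  Fin.cons (fun α x => (dw n β γ ‖x‖ * P β ‖x‖ + w n β γ ‖x‖ * dP β ‖x‖) * (x α / ‖x‖) * x α
      + w n β γ ‖x‖ * P β ‖x‖)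
    (fun j α x => kd j α * ((dw n β γ ‖x‖ * H γ ‖x‖ + w n β γ ‖x‖ * (K γ ‖x‖ * ‖x‖)) * (x α / ‖x‖)
        + w n β γ ‖x‖ * K γ ‖x‖ * x α)
      + (dw n β γ ‖x‖ * K γ ‖x‖ + w n β γ ‖x‖ * dK γ ‖x‖) * (x α / ‖x‖) * (x j * x α)
      + w n β γ ‖x‖ * K γ ‖x‖ * x j)

lemma hasLine_VV (hn : 3 ≤ n) (i : Fin (n + 1)) (α : Fin n) {x : E n} (hx : x ∈ U n) :
    HasLineDerivAt ℝ (fun y => w n β γ ‖y‖ * GG n β γ i α y) (VV' n β γ i α x) x
      (EuclideanSpace.single α 1) := by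
  have h0 := U_pos hx
  have h1 := hx.2.le
  have hw := hasLine_radial α hx.1 (hasDerivAt_w hn β γ h0 h1)
  refine Fin.cases ?_ (fun j => ?_) i
  · simp only [GG, VV', Fin.cons_zero]
    refine HasDerivAt.congr_deriv (hasLine_mul hw (hasLine_mul
      (hasLine_radial α hx.1 (hasDerivAt_P β h0 h1)) (hasLine_coord α α x))) ?_
    rw [kd_self]
    ring
  · simp only [GG, VV', Fin.cons_succ]
    refine HasDerivAt.congr_deriv (hasLine_mul hw (hasLine_add
      (hasLine_mul (hasLine_radial α hx.1 (hasDerivAt_H γ h0 h1)) (hasLine_const (kd j α) x _))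
      (hasLine_mul (hasLine_radial α hx.1 (hasDerivAt_K γ h0 h1))
        (hasLine_mul (hasLine_coord j α x) (hasLine_coord α α x))))) ?_
    rw [kd_self]
    ring

lemma contOn_VV' (hn : 3 ≤ n) (i : Fin (n + 1)) (α : Fin n) : ContinuousOn (VV' n β γ i α) (U n) := by
  have cw : ContinuousOn (fun x : E n => w n β γ ‖x‖) (U n) :=
    contOn_rad fun r h0 h1 => (hasDerivAt_w hn β γ h0 h1).continuousAt
  have cdw : ContinuousOn (fun x : E n => dw n β γ ‖x‖) (U n) :=
    contOn_rad fun r h0 h1 => continuousAt_dw hn β γ h0 h1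
  have cP : ContinuousOn (fun x : E n => P β ‖x‖) (U n) :=
    contOn_rad fun r h0 h1 => (hasDerivAt_P β h0 h1).continuousAt
  have cH : ContinuousOn (fun x : E n => H γ ‖x‖) (U n) :=
    contOn_rad fun r h0 h1 => (hasDerivAt_H γ h0 h1).continuousAt
  have cK : ContinuousOn (fun x : E n => K γ ‖x‖) (U n) :=
    contOn_rad fun r h0 h1 => (hasDerivAt_K γ h0 h1).continuousAt
  have cdP : ContinuousOn (fun x : E n => dP β ‖x‖) (U n) :=
    contOn_rad fun r h0 h1 => continuousAt_dP β h0 h1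
  have cdK : ContinuousOn (fun x : E n => dK γ ‖x‖) (U n) :=
    contOn_rad fun r h0 h1 => continuousAt_dK γ h0 h1
  have cn : ContinuousOn (fun x : E n => ‖x‖) (U n) := continuous_norm.continuousOn
  have cα := contOn_coord (n := n) α
  have cd := contOn_div (n := n) α
  refine Fin.cases ?_ (fun j => ?_) i
  · simp only [VV', Fin.cons_zero]
    exact ((((cdw.mul cP).add (cw.mul cdP)).mul cd).mul cα).add (cw.mul cP)
  · simp only [VV', Fin.cons_succ]
    have cj := contOn_coord (n := n) j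
    exact ((continuousOn_const.mul ((((cdw.mul cH).add (cw.mul (cK.mul cn))).mul cd).add
      ((cw.mul cK).mul cα))).add ((((cdw.mul cK).add (cw.mul cdK)).mul cd).mul (cj.mul cα))).add
      ((cw.mul cK).mul cj)

lemma sum_VV' (hn : 3 ≤ n) (i : Fin (n + 1)) {x : E n} (hx : x ∈ U n) :
    ∑ α, VV' n β γ i α x = -∑ j, ∑ α, Om n β γ α i j x * (w n β γ ‖x‖ * GG n β γ j α x) := by
  have h0 := U_pos hx
  have h1 := hx.2.le
  refine Fin.cases ?_ (fun i => ?_) i
  · rw [Fin.sum_univ_succ]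
    simp only [VV', Om, GG, Fin.cons_zero, Fin.cons_succ, zero_mul, Finset.sum_const_zero,
      zero_add]
    have e1 : ∀ j α, cc n β γ α j x * (w n β γ ‖x‖ * (H γ ‖x‖ * kd j α + K γ ‖x‖ * (x j * x α))) =
        w n β γ ‖x‖ * ((ca n β γ ‖x‖ * (x j * x α) + cb n β γ ‖x‖ * kd j α) *
          (H γ ‖x‖ * kd j α + K γ ‖x‖ * (x j * x α))) := by
      intro j α; unfold cc; ring
    simp only [e1, ← Finset.mul_sum, sum_bil]
    rw [← eq0 (by omega) β γ h0 h1]
    have e2 : ∀ α, (dw n β γ ‖x‖ * P β ‖x‖ + w n β γ ‖x‖ * dP β ‖x‖) * (x α / ‖x‖) * x α =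
        (dw n β γ ‖x‖ * P β ‖x‖ + w n β γ ‖x‖ * dP β ‖x‖) / ‖x‖ * x α ^ 2 := by
      intro α; ring
    simp only [e2, Finset.sum_add_distrib, ← Finset.mul_sum, sum_sq]
    simp only [Finset.sum_const, Finset.card_univ, Fintype.card_fin, nsmul_eq_mul]
    field_simp
  · rw [Fin.sum_univ_succ]
    simp only [VV', Om, GG, Fin.cons_zero, Fin.cons_succ, zero_mul, Finset.sum_const_zero,
      add_zero]
    have e1 : ∀ α, -cc n β γ α i x * (w n β γ ‖x‖ * (P β ‖x‖ * x α)) =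
        -(w n β γ ‖x‖ * P β ‖x‖ * (ca n β γ ‖x‖ * x i * x α ^ 2 + cb n β γ ‖x‖ * (kd i α * x α))) := by
      intro α; unfold cc; ring
    have e2 : ∀ α, (dw n β γ ‖x‖ * K γ ‖x‖ + w n β γ ‖x‖ * dK γ ‖x‖) * (x α / ‖x‖) * (x i * x α) =
        (dw n β γ ‖x‖ * K γ ‖x‖ + w n β γ ‖x‖ * dK γ ‖x‖) / ‖x‖ * x i * x α ^ 2 := by
      intro α; ring
    simp only [e1, e2, Finset.sum_neg_distrib, neg_neg, Finset.sum_add_distrib, ← Finset.mul_sum,
      sum_sq, sum_kd_mul]
    simp only [Finset.sum_const, Finset.card_univ, Fintype.card_fin, nsmul_eq_mul]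
    have e3 := eq1 (n := n) β γ h0 h1
    have e4 : w n β γ ‖x‖ * P β ‖x‖ * (ca n β γ ‖x‖ * x i * ‖x‖ ^ 2 + cb n β γ ‖x‖ * x i) =
        w n β γ ‖x‖ * P β ‖x‖ * (ca n β γ ‖x‖ * ‖x‖ ^ 2 + cb n β γ ‖x‖) * x i := by ring
    rw [e4, ← e3]
    field_simp
    ring

lemma abs_wG_le (p : Par n β γ) (i : Fin (n + 1)) (α : Fin n) {x : E n} (hx : x ∈ U n) :
    |w n β γ ‖x‖ * GG n β γ i α x| * (pw β (tt ‖x‖) / ‖x‖) ≤
      n ^ (n - 1) * (pw (n * β) (tt ‖x‖) / ‖x‖ ^ n) := by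
  have h0 := U_pos hx
  have h1 := hx.2.le
  have ha := pw_pos β (tt_pos h0 h1)
  have hρ := rho_pos p.n2 β γ h0 h1
  have hG := abs_GG_le_rho (β := β) (γ := γ) p.n2 hx i α
  have hρ' := rho_le p h0 h1
  rw [← pw_pow β (tt_pos h0 h1), ← div_pow]
  unfold w
  generalize rho n β γ ‖x‖ = ρ at *
  generalize pw β (tt ‖x‖) / ‖x‖ = c at *
  generalize GG n β γ i α x = g at *
  have hc : 0 ≤ c := by
    by_contra h
    nlinarith [p.nr]
  obtain ⟨k, hk⟩ := Nat.exists_eq_add_of_le' p.n3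
  rw [show n - 2 = k + 1 by omega, show n - 1 = k + 2 by omega, abs_mul,
    abs_of_pos (by positivity), show c ^ n = c ^ (k + 3) by rw [hk]]
  calc ρ ^ (k + 1) * |g| * c ≤ ρ ^ (k + 1) * ρ * c := by gcongr
    _ = ρ ^ (k + 2) * c := by ring
    _ ≤ (n * c) ^ (k + 2) * c := by gcongr
    _ = _ := by ring

theorem isWeakSolution (p : Par n β γ) : IsWeakSolution (GG n β γ) (Om n β γ) := by
  have hn := p.n3
  have hn1 : 1 ≤ n := by omega
  intro i φ hφ
  have cw : ContinuousOn (fun x : E n => w n β γ ‖x‖) (U n) :=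
    contOn_rad fun r h0 h1 => (hasDerivAt_w hn β γ h0 h1).continuousAt
  have ct : ContinuousOn (fun x : E n => ‖x‖ * tt ‖x‖) (U n) :=
    continuous_norm.continuousOn.mul
      (contOn_rad fun r h0 _ => (hasDerivAt_tt h0).continuousAt)
  have key := ibp2 hn1 (V := fun α x => w n β γ ‖x‖ * GG n β γ i α x) (V' := VV' n β γ i)
    (D := fun x => -∑ j, ∑ α, Om n β γ α i j x * (w n β γ ‖x‖ * GG n β γ j α x)) (φ := φ)
    (fun α x hx => hasLine_VV hn i α hx) (fun α => cw.mul (contOn_GG i α))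
    (fun α => contOn_VV' hn i α) (fun x hx => sum_VV' hn i hx) ?_ ?_ ?_ hφ
  · calc _ = ∫ x, ∑ α, w n β γ ‖x‖ * GG n β γ i α x * pd α φ x ∂(ballMeasure n) := by
          apply integral_congr_ae
          filter_upwards [ae_mem_U hn1] with x hx
          simp only [gradNorm_GG p.n2 hx, w]
      _ = _ := key
      _ = _ := by
          rw [← integral_neg]
          apply integral_congr_ae
          filter_upwards [ae_mem_U hn1] with x hx
          simp only [gradNorm_GG p.n2 hx, w, neg_mul, neg_neg]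
  · intro α
    refine integrable_of_pw hn1 p.nb (C := 2 * n ^ (n - 1)) (cw.mul (contOn_GG i α))
      fun x hx => ?_
    have h1 := abs_wG_le p i α hx
    have h2 := tt_le p (U_pos hx) hx.2.le
    have h3 := one_le_tt (U_pos hx) hx.2.le
    have h4 := mul_le_mul_of_nonneg_left (h3.trans h2)
      (abs_nonneg (w n β γ ‖x‖ * GG n β γ i α x))
    linarith
  · intro α
    refine integrable_of_pw hn1 p.nb (C := n ^ (n - 1)) ((cw.mul (contOn_GG i α)).div ct
      fun x hx => (mul_pos (U_pos hx) (tt_pos (U_pos hx) hx.2.le)).ne') fun x hx => ?_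
    have h0 := U_pos hx
    have ht := one_le_tt h0 hx.2.le
    have h2 := pw_anti ht (by linarith [p.b2] : β ≤ 1)
    rw [pw_one (by linarith)] at h2
    refine le_trans ?_ (abs_wG_le p i α hx)
    rw [abs_div, abs_of_pos (by positivity : 0 < ‖x‖ * tt ‖x‖), div_eq_mul_one_div]
    refine mul_le_mul_of_nonneg_left ?_ (abs_nonneg _)
    rw [mul_comm, ← div_div]
    exact div_le_div_of_nonneg_right h2 h0.le
  · apply Integrable.neg
    refine integrable_finsetSum _ fun j _ => integrable_finsetSum _ fun α _ => ?_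
    refine integrable_of_pw hn1 p.nb (C := 10 * n * n ^ (n - 1))
      ((contOn_Om p.n2 α i j).mul (cw.mul (contOn_GG j α))) fun x hx => ?_
    have h1 := mul_le_mul_of_nonneg_left (abs_wG_le p j α hx) (by positivity : (0 : ℝ) ≤ 10 * n)
    have h2 := mul_le_mul_of_nonneg_right (abs_Om_le p α i j hx)
      (abs_nonneg (w n β γ ‖x‖ * GG n β γ j α x))
    rw [abs_mul]
    linarith

theorem not_hasContinuousRep (p : Par n β γ) : ¬ HasContinuousRep (uu n β γ) := by
  have hn : 1 ≤ n := by have := p.n3; omega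
  rintro ⟨v, hv, hae⟩
  have : Nontrivial (E n) := by
    have : Nonempty (Fin n) := ⟨⟨0, hn⟩⟩
    infer_instance
  have hv0 : ContinuousAt (fun x => v x 0) 0 :=
    (continuous_apply 0).continuousAt.comp (hv.continuousAt (ball_mem_nhds 0 one_pos))
  have h1 : ∀ᶠ x in 𝓝 (0 : E n), v x 0 < v 0 0 + 1 := hv0.eventually (gt_mem_nhds (by linarith))
  have h2 : ∀ᶠ r in 𝓝[>] (0 : ℝ), v 0 0 + 1 < u0 β r := (tendsto_u0 p).eventually_gt_atTop _
  rw [eventually_nhdsWithin_iff] at h2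
  have h3 : ∀ᶠ x in 𝓝 (0 : E n), 0 < ‖x‖ → v 0 0 + 1 < u0 β ‖x‖ := by
    have hc : Tendsto (fun x : E n => ‖x‖) (𝓝 0) (𝓝 0) := by
      simpa using (continuous_norm (E := E n)).tendsto 0
    exact hc.eventually h2
  have h4 : ∀ᶠ x in 𝓝 (0 : E n), x ∈ ball (0 : E n) 1 := ball_mem_nhds 0 one_pos
  obtain ⟨ε, hε, hball⟩ := Metric.eventually_nhds_iff_ball.mp (h1.and (h3.and h4))
  have h5 : ∀ᵐ x ∂(ballMeasure n), x ∉ ball (0 : E n) ε := by
    filter_upwards [hae, ae_mem_U hn] with x hx hxU hxb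
    obtain ⟨a, b, _⟩ := hball x hxb
    have := hx 0
    simp only [uu, Fin.cons_zero] at this
    have := b (U_pos hxU)
    linarith
  have h6 : ballMeasure n (ball 0 ε) = 0 := measure_eq_zero_iff_ae_notMem.mpr h5
  unfold ballMeasure at h6
  rw [Measure.restrict_apply measurableSet_ball,
    inter_eq_left.mpr (fun x hx => (hball x hx).2.2)] at h6
  exact (measure_ball_pos volume (0 : E n) hε).ne' h6

end Pool.Agent.Lib.MP_a785f2_an.CX3
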