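import Pool.Agent.Lib.MP_a785f2_an.CX3.Ex

/-! Bounded examples: the first coordinate is wrapped around a circle. -/

open MeasureTheory Metric Filter Topology Set

namespace Pool.Agent.Lib.MP_a785f2_an.CX3

variable {n : ℕ} {β γ : ℝ}

noncomputable def co (β : ℝ) (x : E n) : ℝ := Real.cos (u0 β ‖x‖)
noncomputable def si (β : ℝ) (x : E n) : ℝ := Real.sin (u0 β ‖x‖)

noncomputable def uB (n : ℕ) (β γ : ℝ) : Fin (n + 2) → E n → ℝ :=
  Fin.cons (co β) (Fin.cons (si β) fun j => uu n β γ j.succ)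

noncomputable def GB (n : ℕ) (β γ : ℝ) : Fin (n + 2) → Fin n → E n → ℝ :=
  Fin.cons (fun α x => -si β x * GG n β γ 0 α x)
    (Fin.cons (fun α x => co β x * GG n β γ 0 α x) fun j => GG n β γ j.succ)

noncomputable def OmB (n : ℕ) (β γ : ℝ) (α : Fin n) : Fin (n + 2) → Fin (n + 2) → E n → ℝ :=
  Fin.cons
    (Fin.cons (fun _ => 0) (Fin.cons (GG n β γ 0 α) fun j x => -si β x * cc n β γ α j x))
    (Fin.cons
      (Fin.cons (fun x => -GG n β γ 0 α x)
        (Fin.cons (fun _ => 0) fun j x => co β x * cc n β γ α j x))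
      fun i => Fin.cons (fun x => si β x * cc n β γ α i x)
        (Fin.cons (fun x => -(co β x * cc n β γ α i x)) fun _ _ => 0))

lemma cases2 {C : Fin (n + 2) → Prop} (h0 : C 0) (h1 : C (Fin.succ 0))
    (h2 : ∀ j : Fin n, C j.succ.succ) (i : Fin (n + 2)) : C i :=
  Fin.cases h0 (fun i => Fin.cases h1 h2 i) i

lemma co_sq (x : E n) : si β x ^ 2 + co β x ^ 2 = 1 := Real.sin_sq_add_cos_sq _

lemma abs_co (x : E n) : |co β x| ≤ 1 := Real.abs_cos_le_one _

lemma abs_si (x : E n) : |si β x| ≤ 1 := Real.abs_sin_le_one _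

lemma gradNorm_GB (x : E n) : gradNorm (GB n β γ) x = gradNorm (GG n β γ) x := by
  unfold gradNorm
  congr 1
  rw [Fin.sum_univ_succ, Fin.sum_univ_succ, Fin.sum_univ_succ (fun i => ∑ α, GG n β γ i α x ^ 2),
    ← add_assoc]
  simp only [GB, Fin.cons_zero, Fin.cons_succ]
  congr 1
  rw [← Finset.sum_add_distrib]
  refine Finset.sum_congr rfl fun α _ => ?_
  linear_combination GG n β γ 0 α x ^ 2 * co_sq (β := β) x

lemma contOn_co (hb : β < 1) : ContinuousOn (co β : E n → ℝ) (U n) :=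
  Real.continuous_cos.comp_continuousOn (contOn_uu (γ := 0) hb 0)

lemma contOn_si (hb : β < 1) : ContinuousOn (si β : E n → ℝ) (U n) :=
  Real.continuous_sin.comp_continuousOn (contOn_uu (γ := 0) hb 0)

lemma hasLine_co (hb : β < 1) (α : Fin n) {x : E n} (hx : x ∈ U n) :
    HasLineDerivAt ℝ (co β) (-si β x * GG n β γ 0 α x) x (EuclideanSpace.single α 1) := by
  have h := HasDerivAt.cos (hasLine_uu (γ := γ) hb 0 α hx)
  rw [zero_smul, add_zero] at h
  exact h

lemma hasLine_si (hb : β < 1) (α : Fin n) {x : E n} (hx : x ∈ U n) :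
    HasLineDerivAt ℝ (si β) (co β x * GG n β γ 0 α x) x (EuclideanSpace.single α 1) := by
  have h := HasDerivAt.sin (hasLine_uu (γ := γ) hb 0 α hx)
  rw [zero_smul, add_zero] at h
  exact h

lemma contOn_uB (hb : β < 1) (i : Fin (n + 2)) : ContinuousOn (uB n β γ i) (U n) :=
  cases2 (C := fun i => ContinuousOn (uB n β γ i) (U n)) (contOn_co hb) (contOn_si hb)
    (fun j => contOn_uu hb j.succ) i

lemma contOn_GB (hb : β < 1) (i : Fin (n + 2)) (α : Fin n) :
    ContinuousOn (GB n β γ i α) (U n) :=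
  cases2 (C := fun i => ContinuousOn (GB n β γ i α) (U n))
    ((contOn_si hb).neg.mul (contOn_GG 0 α)) ((contOn_co hb).mul (contOn_GG 0 α))
    (fun j => contOn_GG (β := β) j.succ α) i

lemma hasLine_uB (hb : β < 1) (i : Fin (n + 2)) (α : Fin n) {x : E n} (hx : x ∈ U n) :
    HasLineDerivAt ℝ (uB n β γ i) (GB n β γ i α x) x (EuclideanSpace.single α 1) :=
  cases2 (C := fun i => HasLineDerivAt ℝ (uB n β γ i) (GB n β γ i α x) x
    (EuclideanSpace.single α 1)) (hasLine_co hb α hx) (hasLine_si hb α hx)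
    (fun j => hasLine_uu hb j.succ α hx) i

lemma abs_mul_le_of {a b c : ℝ} (ha : |a| ≤ 1) (hb : |b| ≤ c) : |a * b| ≤ c := by
  rw [abs_mul]
  exact (mul_le_of_le_one_left (abs_nonneg _) ha).trans hb

lemma exists_GB (i : Fin (n + 2)) :
    ∃ i', ∀ α x, |GB n β γ i α x| ≤ |GG n β γ i' α x| :=
  cases2 (C := fun i => ∃ i', ∀ α x, |GB n β γ i α x| ≤ |GG n β γ i' α x|)
    ⟨0, fun _ x => abs_mul_le_of ((abs_neg _).le.trans (abs_si x)) le_rfl⟩
    ⟨0, fun _ x => abs_mul_le_of (abs_co x) le_rfl⟩ (fun j => ⟨j.succ, fun _ _ => le_rfl⟩) i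

lemma abs_uB_le (p : Par n β γ) (i : Fin (n + 2)) {x : E n} (hx : x ∈ U n) :
    |uB n β γ i x| ≤ 1 := by
  refine cases2 (C := fun i => |uB n β γ i x| ≤ 1) (abs_co x) (abs_si x) (fun j => ?_) i
  have h0 := U_pos hx
  have he := pw_pos γ (tt_pos h0 hx.2.le)
  have hH : 0 < H γ ‖x‖ := by unfold H; positivity
  change |H γ ‖x‖ * x j| ≤ 1
  rw [abs_mul, abs_of_pos hH]
  calc H γ ‖x‖ * |x j| ≤ H γ ‖x‖ * ‖x‖ := by gcongr; exact abs_coord_le x j
    _ = pw γ (tt ‖x‖) := by unfold H; field_simp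
    _ ≤ 1 := pw_le_one (one_le_tt h0 hx.2.le) p.g0.le

lemma contOn_OmB (p : Par n β γ) (α : Fin n) (i j : Fin (n + 2)) :
    ContinuousOn (OmB n β γ α i j) (U n) := by
  have hb : β < 1 := by linarith [p.b2]
  have c0 := contOn_GG (n := n) (β := β) (γ := γ) 0 α
  have c1 := contOn_co (n := n) hb
  have c2 := contOn_si (n := n) hb
  have c3 := fun j => contOn_cc (β := β) (γ := γ) p.n2 α j
  refine cases2 (C := fun i => ContinuousOn (OmB n β γ α i j) (U n)) ?_ ?_ (fun i => ?_) i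
  · exact cases2 (C := fun j => ContinuousOn (OmB n β γ α 0 j) (U n)) continuousOn_const c0
      (fun j => c2.neg.mul (c3 j)) j
  · exact cases2 (C := fun j => ContinuousOn (OmB n β γ α (Fin.succ 0) j) (U n)) c0.neg
      continuousOn_const (fun j => c1.mul (c3 j)) j
  · exact cases2 (C := fun j => ContinuousOn (OmB n β γ α i.succ.succ j) (U n)) (c2.mul (c3 i))
      (c1.mul (c3 i)).neg (fun j => continuousOn_const) j

lemma abs_OmB_le (p : Par n β γ) (α : Fin n) (i j : Fin (n + 2)) {x : E n} (hx : x ∈ U n) :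
    |OmB n β γ α i j x| ≤ 10 * n * (pw β (tt ‖x‖) / ‖x‖) := by
  have h0 := U_pos hx
  have ha : 0 < pw β (tt ‖x‖) / ‖x‖ := div_pos (pw_pos β (tt_pos h0 hx.2.le)) h0
  have z : |(0 : ℝ)| ≤ 10 * n * (pw β (tt ‖x‖) / ‖x‖) := by rw [abs_zero]; positivity
  have c0 : |GG n β γ 0 α x| ≤ 10 * n * (pw β (tt ‖x‖) / ‖x‖) :=
    (abs_GG_le_rho p.n2 hx 0 α).trans ((rho_le p h0 hx.2.le).trans
      (mul_le_mul_of_nonneg_right (by linarith [p.nr]) ha.le))
  have c3 := fun j => abs_cc_le p α j hx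
  refine cases2 (C := fun i => |OmB n β γ α i j x| ≤ _) ?_ ?_ (fun i => ?_) i
  · exact cases2 (C := fun j => |OmB n β γ α 0 j x| ≤ _) z c0
      (fun j => abs_mul_le_of ((abs_neg _).le.trans (abs_si x)) (c3 j)) j
  · exact cases2 (C := fun j => |OmB n β γ α (Fin.succ 0) j x| ≤ _) ((abs_neg _).le.trans c0) z
      (fun j => abs_mul_le_of (abs_co x) (c3 j)) j
  · exact cases2 (C := fun j => |OmB n β γ α i.succ.succ j x| ≤ _)
      (abs_mul_le_of (abs_si x) (c3 i)) ((abs_neg _).le.trans (abs_mul_le_of (abs_co x) (c3 i)))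
      (fun j => z) j

lemma OmB_antisymm (α : Fin n) (i j : Fin (n + 2)) (x : E n) :
    OmB n β γ α j i x = -OmB n β γ α i j x := by
  refine cases2 (C := fun i => OmB n β γ α j i x = -OmB n β γ α i j x) ?_ ?_ (fun i => ?_) i <;>
    refine Fin.cases ?_ (fun j => Fin.cases ?_ (fun j => ?_) j) j <;>
    simp only [OmB, Fin.cons_zero, Fin.cons_succ, neg_zero, neg_neg, neg_mul]

theorem antisymB (p : Par n β γ) : IsAntisymPotential (OmB n β γ) :=
  ⟨fun α i j => memLp_of_pw (by have := p.n3; omega) p.nb (contOn_OmB p α i j)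
      (fun _ hx => abs_OmB_le p α i j hx),
    fun α i j => Eventually.of_forall (OmB_antisymm α i j)⟩

theorem OmB_le_grad (p : Par n β γ) :
    ∀ᵐ x ∂(ballMeasure n), ∀ α i j, |OmB n β γ α i j x| ≤ 10 * n * gradNorm (GB n β γ) x := by
  filter_upwards [ae_mem_U (by have := p.n3; omega : 1 ≤ n)] with x hx α i j
  rw [gradNorm_GB, gradNorm_GG p.n2 hx]
  exact (abs_OmB_le p α i j hx).trans
    (mul_le_mul_of_nonneg_left (le_rho p (U_pos hx) hx.2.le) (by positivity))

theorem uB_bdd (p : Par n β γ) : ∀ᵐ x ∂(ballMeasure n), ∀ i, |uB n β γ i x| ≤ 1 :=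
  (ae_mem_U (by have := p.n3; omega : 1 ≤ n)).mono fun _ hx i => abs_uB_le p i hx

lemma memLp_GB (p : Par n β γ) (i : Fin (n + 2)) (α : Fin n) :
    MemLp (GB n β γ i α) n (ballMeasure n) := by
  obtain ⟨i', h⟩ := exists_GB (β := β) (γ := γ) i
  exact memLp_of_pw (by have := p.n3; omega) p.nb (contOn_GB (by linarith [p.b2]) i α)
    fun x hx => (h α x).trans
      ((abs_GG_le_rho p.n2 hx i' α).trans (rho_le p (U_pos hx) hx.2.le))

theorem isW1nB (p : Par n β γ) : IsW1n (uB n β γ) (GB n β γ) := by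
  have hn := p.n3
  have hn1 : 1 ≤ n := by omega
  have hb : β < 1 := by linarith [p.b2]
  have fin0 : IsFiniteMeasure (ballMeasure n) :=
    isFiniteMeasure_restrict.2 measure_ball_lt_top.ne
  have one_le : ∀ x ∈ U n, 1 ≤ 2 * (pw β (tt ‖x‖) / ‖x‖) := fun x hx =>
    (one_le_tt (U_pos hx) hx.2.le).trans (tt_le p (U_pos hx) hx.2.le)
  refine ⟨fun i => memLp_of_pw hn1 p.nb (C := 2) (contOn_uB hb i) fun x hx =>
    (abs_uB_le p i hx).trans (one_le x hx), memLp_GB p, fun i α φ hφ => ?_⟩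
  have key := ibp hn1 (V := fun δ x => kd α δ * uB n β γ i x)
    (V' := fun δ x => kd α δ * GB n β γ i δ x) (D := GB n β γ i α) (φ := φ)
    ?_ ?_ ?_ ?_ ?_ ((memLp_GB p i α).integrable (by exact_mod_cast hn1)) hφ
  · rw [← key]
    congr 1
    funext x
    simp only [mul_assoc, sum_kd_mul]
  · intro δ x hx
    exact HasDerivAt.congr_deriv
      (hasLine_mul (hasLine_const (kd α δ) x _) (hasLine_uB hb i δ hx)) (by simp)
  · exact fun δ => continuousOn_const.mul (contOn_uB hb i)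
  · exact fun δ => continuousOn_const.mul (contOn_GB hb i δ)
  · intro x _
    exact sum_kd_mul α (fun δ => GB n β γ i δ x)
  · intro δ
    refine integrable_of_bound hn1 (C := 2) (aesm_of_continuousOn hn1
      ((continuousOn_const.mul (contOn_uB hb i)).div continuous_norm.continuousOn
        (fun _ hx => (U_pos hx).ne'))) fun x hx => ?_
    have h0 := U_pos hx
    have hs := one_le_s h0 hx.2.le
    have h2 := aux_bound hn h0 hx.2.le
    have h4 : s ‖x‖ ^ 3 ≤ s ‖x‖ ^ 4 := pow_le_pow_right₀ hs (by norm_num)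
    rw [abs_div, abs_of_pos h0, div_le_div_iff₀ h0 (by positivity)]
    calc _ ≤ 1 * (‖x‖ ^ n * s ‖x‖ ^ 4) :=
          mul_le_mul (abs_mul_le_of (abs_kd_le α δ) (abs_uB_le p i hx))
            (mul_le_mul_of_nonneg_left h4 (by positivity)) (by positivity) zero_le_one
      _ ≤ 2 * ‖x‖ ^ 2 := by linarith
      _ ≤ _ := by nlinarith [hx.2]

noncomputable def VB (n : ℕ) (β γ : ℝ) : Fin (n + 2) → Fin n → E n → ℝ :=
  Fin.cons (fun α x => -si β x * VV' n β γ 0 α x -
      co β x * GG n β γ 0 α x * (w n β γ ‖x‖ * GG n β γ 0 α x))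
    (Fin.cons (fun α x => co β x * VV' n β γ 0 α x -
      si β x * GG n β γ 0 α x * (w n β γ ‖x‖ * GG n β γ 0 α x)) fun j => VV' n β γ j.succ)

lemma hasLine_VB (p : Par n β γ) (i : Fin (n + 2)) (α : Fin n) {x : E n} (hx : x ∈ U n) :
    HasLineDerivAt ℝ (fun y => w n β γ ‖y‖ * GB n β γ i α y) (VB n β γ i α x) x
      (EuclideanSpace.single α 1) := by
  have hb : β < 1 := by linarith [p.b2]
  have h0 := hasLine_VV (β := β) (γ := γ) p.n3 0 α hx
  refine cases2 (C := fun i => HasLineDerivAt ℝ (fun y => w n β γ ‖y‖ * GB n β γ i α y)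
    (VB n β γ i α x) x (EuclideanSpace.single α 1)) ?_ ?_
    (fun j => hasLine_VV p.n3 j.succ α hx) i
  · have h1 := hasLine_mul (hasLine_const (-1) x _)
      (hasLine_mul (hasLine_si (γ := γ) hb α hx) h0)
    have e : (fun y => w n β γ ‖y‖ * GB n β γ 0 α y) =
        fun y => -1 * (si β y * (w n β γ ‖y‖ * GG n β γ 0 α y)) := by
      funext y
      simp only [GB, Fin.cons_zero]
      ring
    rw [e]
    refine HasDerivAt.congr_deriv h1 ?_
    simp only [VB, Fin.cons_zero]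
    ring
  · have h1 := hasLine_mul (hasLine_co (γ := γ) hb α hx) h0
    have e : (fun y => w n β γ ‖y‖ * GB n β γ (Fin.succ 0) α y) =
        fun y => co β y * (w n β γ ‖y‖ * GG n β γ 0 α y) := by
      funext y
      simp only [GB, Fin.cons_zero, Fin.cons_succ]
      ring
    rw [e]
    refine HasDerivAt.congr_deriv h1 ?_
    simp only [VB, Fin.cons_zero, Fin.cons_succ]
    ring

lemma contOn_w (p : Par n β γ) : ContinuousOn (fun x : E n => w n β γ ‖x‖) (U n) :=
  contOn_rad fun _ h0 h1 => (hasDerivAt_w p.n3 β γ h0 h1).continuousAt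

lemma contOn_VB (p : Par n β γ) (i : Fin (n + 2)) (α : Fin n) :
    ContinuousOn (VB n β γ i α) (U n) := by
  have hb : β < 1 := by linarith [p.b2]
  have c0 := contOn_GG (n := n) (β := β) (γ := γ) 0 α
  have c1 := contOn_co (n := n) hb
  have c2 := contOn_si (n := n) hb
  have c3 := contOn_VV' (β := β) (γ := γ) p.n3 0 α
  exact cases2 (C := fun i => ContinuousOn (VB n β γ i α) (U n))
    ((c2.neg.mul c3).sub ((c1.mul c0).mul ((contOn_w p).mul c0)))
    ((c1.mul c3).sub ((c2.mul c0).mul ((contOn_w p).mul c0)))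
    (fun j => contOn_VV' p.n3 j.succ α) i

lemma sum_VB (p : Par n β γ) (i : Fin (n + 2)) {x : E n} (hx : x ∈ U n) :
    ∑ α, VB n β γ i α x = -∑ j, ∑ α, OmB n β γ α i j x * (w n β γ ‖x‖ * GB n β γ j α x) := by
  have h0 := sum_VV' (β := β) (γ := γ) p.n3 0 hx
  rw [Fin.sum_univ_succ] at h0
  simp only [Om, Fin.cons_zero, Fin.cons_succ, zero_mul, Finset.sum_const_zero, zero_add] at h0
  refine cases2 (C := fun i => ∑ α, VB n β γ i α x =
    -∑ j, ∑ α, OmB n β γ α i j x * (w n β γ ‖x‖ * GB n β γ j α x)) ?_ ?_ (fun i => ?_) i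
  · rw [Fin.sum_univ_succ (fun j => ∑ α, _), Fin.sum_univ_succ (fun j => ∑ α, _)]
    simp only [VB, OmB, GB, Fin.cons_zero, Fin.cons_succ, zero_mul, Finset.sum_const_zero,
      zero_add, Finset.sum_sub_distrib, mul_assoc, ← Finset.mul_sum, h0]
    have e : ∀ α, GG n β γ 0 α x * (w n β γ ‖x‖ * (co β x * GG n β γ 0 α x)) =
        co β x * (GG n β γ 0 α x * (w n β γ ‖x‖ * GG n β γ 0 α x)) := fun α => by ring
    simp only [e, ← Finset.mul_sum]
    ring
  · rw [Fin.sum_univ_succ (fun j => ∑ α, _), Fin.sum_univ_succ (fun j => ∑ α, _)]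
    simp only [VB, OmB, GB, Fin.cons_zero, Fin.cons_succ, zero_mul, Finset.sum_const_zero,
      zero_add, Finset.sum_sub_distrib, mul_assoc, ← Finset.mul_sum, h0]
    have e : ∀ α, -GG n β γ 0 α x * (w n β γ ‖x‖ * (-si β x * GG n β γ 0 α x)) =
        si β x * (GG n β γ 0 α x * (w n β γ ‖x‖ * GG n β γ 0 α x)) := fun α => by ring
    simp only [e, ← Finset.mul_sum]
    ring
  · have h1 := sum_VV' (β := β) (γ := γ) p.n3 i.succ hx
    rw [Fin.sum_univ_succ] at h1
    rw [Fin.sum_univ_succ (fun j => ∑ α, _), Fin.sum_univ_succ (fun j => ∑ α, _)]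
    simp only [Om, Fin.cons_zero, Fin.cons_succ, zero_mul, Finset.sum_const_zero, add_zero] at h1
    simp only [VB, OmB, GB, Fin.cons_zero, Fin.cons_succ, zero_mul, Finset.sum_const_zero,
      add_zero, h1, ← Finset.sum_add_distrib]
    congr 1
    refine Finset.sum_congr rfl fun α _ => ?_
    linear_combination (cc n β γ α i x * w n β γ ‖x‖ * GG n β γ 0 α x) * co_sq (β := β) x

lemma abs_wGB_le (p : Par n β γ) (i : Fin (n + 2)) (α : Fin n) {x : E n} (hx : x ∈ U n) :
    |w n β γ ‖x‖ * GB n β γ i α x| * (pw β (tt ‖x‖) / ‖x‖) ≤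
      n ^ (n - 1) * (pw (n * β) (tt ‖x‖) / ‖x‖ ^ n) := by
  obtain ⟨i', h⟩ := exists_GB (β := β) (γ := γ) i
  refine le_trans (mul_le_mul_of_nonneg_right ?_
    (div_pos (pw_pos β (tt_pos (U_pos hx) hx.2.le)) (U_pos hx)).le) (abs_wG_le p i' α hx)
  rw [abs_mul, abs_mul]
  exact mul_le_mul_of_nonneg_left (h α x) (abs_nonneg _)

theorem isWeakB (p : Par n β γ) : IsWeakSolution (GB n β γ) (OmB n β γ) := by
  have hn := p.n3
  have hn1 : 1 ≤ n := by omega
  have hb : β < 1 := by linarith [p.b2]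
  intro i φ hφ
  have cw := contOn_w p
  have ct : ContinuousOn (fun x : E n => ‖x‖ * tt ‖x‖) (U n) :=
    continuous_norm.continuousOn.mul
      (contOn_rad fun r h0 _ => (hasDerivAt_tt h0).continuousAt)
  have key := ibp2 hn1 (V := fun α x => w n β γ ‖x‖ * GB n β γ i α x) (V' := VB n β γ i)
    (D := fun x => -∑ j, ∑ α, OmB n β γ α i j x * (w n β γ ‖x‖ * GB n β γ j α x)) (φ := φ)
    (fun α x hx => hasLine_VB p i α hx) (fun α => cw.mul (contOn_GB hb i α))
    (fun α => contOn_VB p i α) (fun x hx => sum_VB p i hx) ?_ ?_ ?_ hφ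
  · calc _ = ∫ x, ∑ α, w n β γ ‖x‖ * GB n β γ i α x * pd α φ x ∂(ballMeasure n) := by
          apply integral_congr_ae
          filter_upwards [ae_mem_U hn1] with x hx
          simp only [gradNorm_GB, gradNorm_GG p.n2 hx, w]
      _ = _ := key
      _ = _ := by
          rw [← integral_neg]
          apply integral_congr_ae
          filter_upwards [ae_mem_U hn1] with x hx
          simp only [gradNorm_GB, gradNorm_GG p.n2 hx, w, neg_mul, neg_neg]
  · intro α
    refine integrable_of_pw hn1 p.nb (C := 2 * n ^ (n - 1)) (cw.mul (contOn_GB hb i α))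
      fun x hx => ?_
    have h1 := abs_wGB_le p i α hx
    have h2 := tt_le p (U_pos hx) hx.2.le
    have h3 := one_le_tt (U_pos hx) hx.2.le
    have h4 := mul_le_mul_of_nonneg_left (h3.trans h2)
      (abs_nonneg (w n β γ ‖x‖ * GB n β γ i α x))
    linarith
  · intro α
    refine integrable_of_pw hn1 p.nb (C := n ^ (n - 1)) ((cw.mul (contOn_GB hb i α)).div ct
      fun x hx => (mul_pos (U_pos hx) (tt_pos (U_pos hx) hx.2.le)).ne') fun x hx => ?_
    have h0 := U_pos hx
    have ht := one_le_tt h0 hx.2.le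
    have h2 := pw_anti ht hb.le
    rw [pw_one (by linarith)] at h2
    refine le_trans ?_ (abs_wGB_le p i α hx)
    rw [abs_div, abs_of_pos (by positivity : 0 < ‖x‖ * tt ‖x‖), div_eq_mul_one_div]
    refine mul_le_mul_of_nonneg_left ?_ (abs_nonneg _)
    rw [mul_comm, ← div_div]
    exact div_le_div_of_nonneg_right h2 h0.le
  · apply Integrable.neg
    refine integrable_finsetSum _ fun j _ => integrable_finsetSum _ fun α _ => ?_
    refine integrable_of_pw hn1 p.nb (C := 10 * n * n ^ (n - 1))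
      ((contOn_OmB p α i j).mul (cw.mul (contOn_GB hb j α))) fun x hx => ?_
    have h1 := mul_le_mul_of_nonneg_left (abs_wGB_le p j α hx) (by positivity : (0 : ℝ) ≤ 10 * n)
    have h2 := mul_le_mul_of_nonneg_right (abs_OmB_le p α i j hx)
      (abs_nonneg (w n β γ ‖x‖ * GB n β γ j α x))
    rw [abs_mul]
    linarith

theorem not_repB (p : Par n β γ) : ¬ HasContinuousRep (uB n β γ) := by
  have hn : 1 ≤ n := by have := p.n3; omega
  have hb : β < 1 := by linarith [p.b2]
  rintro ⟨v, hv, hae⟩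
  have hsub : U n ⊆ ball 0 1 := fun x hx => mem_ball_zero_iff.2 hx.2
  have hv0 : ContinuousOn (fun x => v x 0) (ball 0 1) :=
    (continuous_apply 0).comp_continuousOn hv
  have heq : EqOn (co β) (fun x => v x 0) (U n) := by
    refine Measure.eqOn_open_of_ae_eq (μ := volume) ?_ (isOpen_U n) (contOn_co hb) (hv0.mono hsub)
    exact (ae_restrict_of_ae_restrict_of_subset hsub hae).mono fun x hx => hx 0
  set e : E n := EuclideanSpace.single ⟨0, hn⟩ 1 with he
  have hne : ∀ r : ℝ, 0 < r → ‖r • e‖ = r := fun r hr => by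
    simp [he, norm_smul, abs_of_pos hr]
  have t1 : Tendsto (fun r : ℝ => r • e) (𝓝[>] 0) (𝓝 0) := by
    have c : Continuous fun r : ℝ => r • e := continuous_id.smul continuous_const
    simpa using (c.tendsto 0).mono_left nhdsWithin_le_nhds
  have t2 : Tendsto (fun r => Real.cos (u0 β r)) (𝓝[>] 0) (𝓝 (v 0 0)) := by
    refine ((hv0.continuousAt (ball_mem_nhds 0 one_pos)).tendsto.comp t1).congr' ?_
    filter_upwards [Ioo_mem_nhdsGT one_pos] with r hr
    have hx : r • e ∈ U n := ⟨norm_pos_iff.1 (by rw [hne r hr.1]; exact hr.1),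
      by rw [hne r hr.1]; exact hr.2⟩
    have := heq hx
    simp only [co, hne r hr.1] at this
    exact this.symm
  have hq : 0 < 1 - β := by linarith
  set R : ℝ → ℝ := fun y => Real.exp (1 - ((1 - β) * y) ^ (1 - β)⁻¹) with hR
  have t3 : Tendsto (fun y : ℝ => ((1 - β) * y) ^ (1 - β)⁻¹) atTop atTop :=
    (tendsto_rpow_atTop (inv_pos.2 hq)).comp (tendsto_id.const_mul_atTop hq)
  have t4 : Tendsto R atTop (𝓝[>] 0) :=
    Real.tendsto_exp_atBot_nhdsGT.comp
      ((tendsto_atBot_add_const_left _ 1 (tendsto_neg_atTop_atBot.comp t3)).congr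
        fun _ => (sub_eq_add_neg _ _).symm)
  have t5 : Tendsto Real.cos atTop (𝓝 (v 0 0)) := by
    refine (t2.comp t4).congr' ?_
    filter_upwards [t4.eventually (Ioc_mem_nhdsGT one_pos), eventually_gt_atTop 0] with y h1 h2
    have e1 : tt (R y) = ((1 - β) * y) ^ (1 - β)⁻¹ := by simp [tt, hR]
    simp only [Function.comp]
    rw [u0_eq h1.1 h1.2, e1, Real.rpow_inv_rpow (by positivity) hq.ne',
      mul_div_cancel_left₀ _ hq.ne']
  have t6 : Tendsto (fun k : ℕ => (k : ℝ) * (2 * Real.pi)) atTop atTop :=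
    tendsto_natCast_atTop_atTop.atTop_mul_const (by positivity)
  have a1 : v 0 0 = 1 := tendsto_nhds_unique (t5.comp t6)
    (tendsto_const_nhds.congr fun k => (Real.cos_nat_mul_two_pi k).symm)
  have a2 : v 0 0 = -1 := tendsto_nhds_unique
    (t5.comp (tendsto_atTop_add_const_right _ Real.pi t6))
    (tendsto_const_nhds.congr fun k => (Real.cos_nat_mul_two_pi_add_pi k).symm)
  linarith

end Pool.Agent.Lib.MP_a785f2_an.CX3
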