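import Pool.Agent.Lib.MP_a785f2_an.CX.Main

/-! The family of bounded examples, all properties collected. -/

open MeasureTheory
open scoped NNReal

namespace Pool.Agent.Lib.MP_a785f2_an.CX3

theorem family (n : ℕ) (hn : 3 ≤ n) (β : ℝ) (h1 : 1 < n * β) (h2 : β ≤ 1 / 2) :
    ∃ (u : Fin (n + 2) → E n → ℝ) (G : Fin (n + 2) → Fin n → E n → ℝ)
      (Ω : Fin n → Fin (n + 2) → Fin (n + 2) → E n → ℝ),
      IsW1n u G ∧ IsAntisymPotential Ω ∧ IsWeakSolution G Ω ∧ ¬ HasContinuousRep u ∧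
      (∃ C : ℝ, ∀ᵐ x ∂(ballMeasure n), (∀ i, |u i x| ≤ 1) ∧
        (∀ α i j, |Ω α i j x| ≤ C * gradNorm G x) ∧
        gradNorm G x ≤ C / (‖x‖ * (1 - Real.log ‖x‖) ^ β)) ∧
      ∀ g : ℝ≥0, 0 < g → β = (1 - g) / (3 + g) →
        ∃ a : Fin (n + 2) → Fin (n + 2) → Fin (n + 2) → E (n + 2) → ℝ,
          (∀ l i j, ∃ C : ℝ≥0, HolderWith C g (a l i j) ∧ ∀ q, |a l i j q| ≤ C) ∧
          (∀ l i j q, a l j i q = -a l i j q) ∧
          ∀ᵐ x ∂(ballMeasure n), ∀ α i j,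
            Ω α i j x = ∑ l, a l i j (WithLp.toLp 2 fun k => u k x) * G l α x := by
  have hr : (3 : ℝ) ≤ n := by exact_mod_cast hn
  have b0 : 0 < β := by
    by_contra h
    nlinarith
  set γ := max (2 * β) ((β + 1) / 2) with hγ
  have p : Par n β γ := ⟨hn, b0, le_max_left _ _, max_le (by linarith) (by linarith), h1⟩
  have hU := ae_mem_U (by omega : 1 ≤ n)
  refine ⟨uB n β γ, GB n β γ, OmB n β γ, isW1nB p, antisymB p, isWeakB p, not_repB p,
    ⟨10 * n, ?_⟩, fun g g0 hg => ?_⟩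
  · filter_upwards [uB_bdd p, OmB_le_grad p, hU] with x k1 k2 hx
    refine ⟨k1, k2, ?_⟩
    have h0 := U_pos hx
    have ht := tt_pos h0 hx.2.le
    have ha := pw_pos β ht
    rw [gradNorm_GB, gradNorm_GG p.n2 hx]
    refine (rho_le p h0 hx.2.le).trans ?_
    have e : 10 * n / (‖x‖ * (1 - Real.log ‖x‖) ^ β) = 10 * n * (pw β (tt ‖x‖) / ‖x‖) := by
      rw [pw, Real.rpow_neg ht.le, tt]
      field_simp
    rw [e]
    exact mul_le_mul_of_nonneg_right (by linarith) (by positivity)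
  · have g1 : (0 : ℝ) < g := by exact_mod_cast g0
    have e1 : β * (3 + g) = 1 - g := by rw [hg]; field_simp
    have h3 : (g : ℝ) < ((n : ℝ) - 3) / (n + 1) := by
      rw [lt_div_iff₀ (by linarith)]
      nlinarith
    have e2 : γ = CX.mu g := by
      rw [hγ, max_eq_right (by nlinarith), CX.mu, hg]
      field_simp
      ring
    obtain ⟨-, a, a1, a2, a3⟩ := CX.pulled (n := n) g0 h3
    refine ⟨a, a1, a2, hU.mono fun x hx => ?_⟩
    rw [e2, show β = CX.be g from hg]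
    exact a3 x hx

end Pool.Agent.Lib.MP_a785f2_an.CX3
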