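import Pool.Agent.Lib.MP_a785f2_an.CX3.Scal

/-! Integrable radial weights and a sharper removable singularity statement. -/

open MeasureTheory Metric Filter Topology Set

namespace Pool.Agent.Lib.MP_a785f2_an.CX3

variable {n : ℕ}

lemma tendsto_tt : Tendsto tt (𝓝[>] 0) atTop :=
  (tendsto_atTop_add_const_left _ 1
    (tendsto_neg_atBot_atTop.comp Real.tendsto_log_nhdsGT_zero)).congr
    fun _ => (sub_eq_add_neg _ _).symm

lemma integrableOn_pw {p : ℝ} (hp : 1 < p) :
    IntegrableOn (fun r : ℝ => pw p (tt r) / r) (Ioo 0 1) := by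
  have hq : 0 < p - 1 := by linarith
  let g : ℝ → ℝ := fun r => if r = 0 then 0 else pw (p - 1) (tt r) / (p - 1)
  have hev : ∀ r : ℝ, 0 < r → g =ᶠ[𝓝 r] fun y => pw (p - 1) (tt y) / (p - 1) := fun r hr => by
    filter_upwards [isOpen_ne.mem_nhds hr.ne'] with y hy
    simp [g, hy]
  have hg : ∀ r ∈ Ioc (0 : ℝ) 1, HasDerivAt g (pw p (tt r) / r) r := by
    intro r hr
    have ht := tt_pos hr.1 hr.2
    have h3 := ((hasDerivAt_pw (p - 1) hr.1 hr.2).div_const (p - 1)).congr_of_eventuallyEq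
      (hev r hr.1)
    refine h3.congr_deriv ?_
    have h4 := pw_add (p - 1) 1 ht
    rw [sub_add_cancel, pw_one ht] at h4
    have := hr.1
    rw [h4]
    field_simp
  have hc : ContinuousOn g (Icc 0 1) := by
    intro r hr
    rcases eq_or_lt_of_le hr.1 with h | h
    · subst h
      rw [← continuousWithinAt_sdiff_self]
      have h1 : Tendsto (fun r => pw (p - 1) (tt r) / (p - 1)) (𝓝[>] 0) (𝓝 (0 / (p - 1))) :=
        ((tendsto_rpow_neg_atTop hq).comp tendsto_tt).div_const _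
      rw [zero_div] at h1
      have h2 : Tendsto g (𝓝[>] 0) (𝓝 0) := by
        apply h1.congr'
        filter_upwards [self_mem_nhdsWithin] with y hy
        have : y ≠ 0 := ne_of_gt hy
        simp [g, this]
      have h3 : g 0 = 0 := by simp [g]
      unfold ContinuousWithinAt
      rw [h3]
      exact h2.mono_left (nhdsWithin_mono _ fun y hy => lt_of_le_of_ne hy.1.1 (Ne.symm hy.2))
    · exact (hg r ⟨h, hr.2⟩).continuousAt.continuousWithinAt
  have := intervalIntegral.integrableOn_deriv_of_nonneg hc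
    (fun r hr => hg r ⟨hr.1, hr.2.le⟩) (fun r hr => by
      have := pw_pos p (tt_pos hr.1 hr.2.le)
      have := hr.1
      positivity)
  exact this.mono_set Ioo_subset_Ioc_self

lemma integrable_pw (hn : 1 ≤ n) {p : ℝ} (hp : 1 < p) :
    Integrable (fun x : E n => pw p (tt ‖x‖) / ‖x‖ ^ n) (ballMeasure n) := by
  have : Nontrivial (E n) := by
    have : Nonempty (Fin n) := ⟨⟨0, hn⟩⟩
    infer_instance
  have h := (integrableOn_fun_norm_addHaar (E := E n) (volume : Measure (E n))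
    (f := fun r => pw p (tt r) / r ^ n) (r := 1)).mpr ?_
  · exact h
  · apply (integrableOn_pw hp).congr_fun _ measurableSet_Ioo
    intro r hr
    have := hr.1
    obtain ⟨k, rfl⟩ := Nat.exists_eq_add_of_le' hn
    simp only [finrank_euclideanSpace, Fintype.card_fin, Nat.add_sub_cancel, smul_eq_mul]
    field_simp
    ring

lemma integrable_of_pw (hn : 1 ≤ n) {p : ℝ} (hp : 1 < p) {F : E n → ℝ} {C : ℝ}
    (hF : ContinuousOn F (U n)) (hb : ∀ x ∈ U n, |F x| ≤ C * (pw p (tt ‖x‖) / ‖x‖ ^ n)) :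
    Integrable F (ballMeasure n) := by
  refine ((integrable_pw hn hp).const_mul C).mono' (aesm_of_continuousOn hn hF) ?_
  filter_upwards [ae_mem_U hn] with x hx
  exact hb x hx

lemma memLp_of_pw (hn : 1 ≤ n) {β : ℝ} (hβ : 1 < n * β) {F : E n → ℝ} {C : ℝ}
    (hF : ContinuousOn F (U n)) (hb : ∀ x ∈ U n, |F x| ≤ C * (pw β (tt ‖x‖) / ‖x‖)) :
    MemLp F n (ballMeasure n) := by
  have hn0 : (n : ENNReal) ≠ 0 := by
    simp only [ne_eq, Nat.cast_eq_zero]; omega
  rw [← integrable_norm_rpow_iff (aesm_of_continuousOn hn hF) hn0 (ENNReal.natCast_ne_top n)]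
  simp only [ENNReal.toReal_natCast, Real.rpow_natCast]
  refine integrable_of_pw hn hβ (C := C ^ n) (hF.norm.pow n) fun x hx => ?_
  rw [Real.norm_eq_abs, abs_pow, abs_abs, ← pw_pow β (tt_pos (U_pos hx) hx.2.le), ← div_pow,
    ← mul_pow]
  exact pow_le_pow_left₀ (abs_nonneg _) (hb x hx) n

/-- Integration by parts when only `V / (|x| (1 - log |x|))` is integrable. -/
theorem ibp2 (hn : 1 ≤ n) {V V' : Fin n → E n → ℝ} {D : E n → ℝ}
    (hV : ∀ α, ∀ x ∈ U n, HasLineDerivAt ℝ (V α) (V' α x) x (EuclideanSpace.single α 1))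
    (hVc : ∀ α, ContinuousOn (V α) (U n)) (hV'c : ∀ α, ContinuousOn (V' α) (U n))
    (hD : ∀ x ∈ U n, ∑ α, V' α x = D x) (hV1 : ∀ α, Integrable (V α) (ballMeasure n))
    (hVi : ∀ α, Integrable (fun x => V α x / (‖x‖ * tt ‖x‖)) (ballMeasure n))
    (hDi : Integrable D (ballMeasure n)) {φ : E n → ℝ} (hφ : IsTest φ) :
    ∫ x, ∑ α, V α x * pd α φ x ∂(ballMeasure n) = -∫ x, D x * φ x ∂(ballMeasure n) := by
  set M : ℕ → ℝ → ℝ := fun k r => k / (k + tt r) with hM
  set N : ℕ → ℝ → ℝ := fun k r => k * tt r / (k + tt r) ^ 2 with hN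
  have pos : ∀ (k : ℕ) {r : ℝ}, 0 < r → r ≤ 1 → 0 < k + tt r := fun k r h0 h1 => by
    have := tt_pos h0 h1
    positivity
  have dM : ∀ (k : ℕ) (r : ℝ), 0 < r → r ≤ 1 → HasDerivAt (M k) (N k r / (r * tt r)) r := by
    intro k r h0 h1
    have ht := tt_pos h0 h1
    have hp := pos k h0 h1
    refine ((hasDerivAt_const r (k : ℝ)).fun_div ((hasDerivAt_tt h0).const_add (k : ℝ))
      hp.ne').congr_deriv ?_
    simp only [hN]
    field_simp
    ring
  have cM : ∀ k, ContinuousOn (fun x : E n => M k ‖x‖) (U n) := fun k =>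
    contOn_rad fun r h0 h1 => (dM k r h0 h1).continuousAt
  have cN : ∀ k, ContinuousOn (fun x : E n => N k ‖x‖) (U n) := fun k =>
    contOn_rad fun r h0 h1 => by
      have h2 := (hasDerivAt_tt h0).continuousAt
      have hp := pos k h0 h1
      simp only [hN]
      fun_prop (disch := positivity)
  have ct : ContinuousOn (fun x : E n => ‖x‖ * tt ‖x‖) (U n) :=
    continuous_norm.continuousOn.mul
      (contOn_rad fun r h0 _ => (hasDerivAt_tt h0).continuousAt)
  have nt : ∀ x ∈ U n, ‖x‖ * tt ‖x‖ ≠ 0 := fun x hx =>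
    (mul_pos (U_pos hx) (tt_pos (U_pos hx) hx.2.le)).ne'
  have bM : ∀ k, ∀ x ∈ U n, |M k ‖x‖| ≤ 1 := fun k x hx => by
    have ht := tt_pos (U_pos hx) hx.2.le
    have hp := pos k (U_pos hx) hx.2.le
    simp only [hM]
    rw [abs_of_nonneg (by positivity), div_le_one hp]
    linarith
  have bM2 : ∀ k, ∀ x ∈ U n, |M k ‖x‖ * tt ‖x‖| ≤ k := fun k x hx => by
    have ht := tt_pos (U_pos hx) hx.2.le
    have hp := pos k (U_pos hx) hx.2.le
    simp only [hM]
    rw [abs_of_nonneg (by positivity), div_mul_eq_mul_div, div_le_iff₀ hp]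
    nlinarith [sq_nonneg (k : ℝ)]
  have bN : ∀ k, ∀ x ∈ U n, |N k ‖x‖| ≤ 1 := fun k x hx => by
    have ht := tt_pos (U_pos hx) hx.2.le
    have hp := pos k (U_pos hx) hx.2.le
    have hk : (0 : ℝ) ≤ k := Nat.cast_nonneg k
    simp only [hN]
    rw [abs_of_nonneg (by positivity), div_le_one (by positivity)]
    nlinarith [mul_nonneg hk ht.le]
  have lM : ∀ r : ℝ, Tendsto (fun k : ℕ => M k r) atTop (𝓝 1) := fun r =>
    tendsto_natCast_div_add_atTop (tt r)
  have lN : ∀ r : ℝ, Tendsto (fun k : ℕ => N k r) atTop (𝓝 0) := fun r => by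
    have h1 : Tendsto (fun k : ℕ => tt r / (k + tt r)) atTop (𝓝 0) :=
      (tendsto_atTop_add_const_right _ _ tendsto_natCast_atTop_atTop).const_div_atTop _
    have h2 := (lM r).mul h1
    rw [mul_zero] at h2
    refine h2.congr fun k => ?_
    simp only [hM, hN]
    rw [div_mul_div_comm, sq]
  set W : E n → ℝ := fun x => ∑ α, x α / ‖x‖ * (V α x / (‖x‖ * tt ‖x‖)) with hW
  have iW : Integrable W (ballMeasure n) := integrable_finsetSum _ fun α _ =>
    (hVi α).bdd_mul (c := 1) (aesm_of_continuousOn hn (contOn_div α)) (by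
      filter_upwards [ae_mem_U hn] with x hx
      rw [Real.norm_eq_abs, abs_div, abs_of_pos (U_pos hx), div_le_one (U_pos hx)]
      exact abs_coord_le x α)
  have bdd : ∀ {g F : E n → ℝ} {c : ℝ}, ContinuousOn g (U n) → (∀ x ∈ U n, |g x| ≤ c) →
      Integrable F (ballMeasure n) → Integrable (fun x => g x * F x) (ballMeasure n) :=
    fun h1 h2 h3 => h3.bdd_mul (aesm_of_continuousOn hn h1) ((ae_mem_U hn).mono h2)
  have hk : ∀ k, ∫ x, ∑ α, M k ‖x‖ * V α x * pd α φ x ∂(ballMeasure n) =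
      -∫ x, (M k ‖x‖ * D x + N k ‖x‖ * W x) * φ x ∂(ballMeasure n) := fun k => by
    refine ibp hn (V := fun α x => M k ‖x‖ * V α x)
      (V' := fun α x => M k ‖x‖ * V' α x + N k ‖x‖ * (x α / ‖x‖ * (V α x / (‖x‖ * tt ‖x‖))))
      (fun α x hx => ?_) (fun α => (cM k).mul (hVc α))
      (fun α => ((cM k).mul (hV'c α)).add
        ((cN k).mul ((contOn_div α).mul ((hVc α).div ct nt)))) (fun x hx => ?_) (fun α => ?_)
      ((bdd (cM k) (bM k) hDi).add (bdd (cN k) (bN k) iW)) hφ
    · refine HasDerivAt.congr_deriv (hasLine_mul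
        (hasLine_radial α hx.1 (dM k _ (U_pos hx) hx.2.le)) (hV α x hx)) ?_
      ring
    · rw [Finset.sum_add_distrib, ← Finset.mul_sum, ← Finset.mul_sum, hD x hx]
      rfl
    · refine (bdd ((cM k).mul (contOn_rad fun r h0 _ => (hasDerivAt_tt h0).continuousAt))
        (bM2 k) (hVi α)).congr ?_
      filter_upwards [ae_mem_U hn] with x hx
      have := U_pos hx
      have := tt_pos (U_pos hx) hx.2.le
      simp only [Pi.mul_apply]
      field_simp
  obtain ⟨hφs, hφc, -⟩ := hφ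
  obtain ⟨C0, hC0⟩ := hφs.continuous.bounded_above_of_compact_support hφc
  have cp : ∀ α, Continuous (pd α φ) := fun α =>
    (hφs.continuous_fderiv (by simp)).clm_apply continuous_const
  have ip : ∀ α, Integrable (fun x => V α x * pd α φ x) (ballMeasure n) := fun α => by
    obtain ⟨C1, hC1⟩ := (cp α).bounded_above_of_compact_support (hφc.fderiv_apply ℝ _)
    exact (hV1 α).mul_bdd (cp α).aestronglyMeasurable (ae_of_all _ hC1)
  have iS := integrable_finsetSum Finset.univ fun α _ => ip α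
  have iD : Integrable (fun x => D x * φ x) (ballMeasure n) :=
    hDi.mul_bdd hφs.continuous.aestronglyMeasurable (ae_of_all _ hC0)
  have iWφ : Integrable (fun x => W x * φ x) (ballMeasure n) :=
    iW.mul_bdd hφs.continuous.aestronglyMeasurable (ae_of_all _ hC0)
  have dom : ∀ {g : ℕ → ℝ → ℝ} {c : ℝ} {F : E n → ℝ},
      (∀ k, ContinuousOn (fun x : E n => g k ‖x‖) (U n)) → (∀ k, ∀ x ∈ U n, |g k ‖x‖| ≤ 1) →
      (∀ r, Tendsto (fun k => g k r) atTop (𝓝 c)) → Integrable F (ballMeasure n) →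
      Tendsto (fun k => ∫ x, g k ‖x‖ * F x ∂(ballMeasure n)) atTop
        (𝓝 (∫ x, c * F x ∂(ballMeasure n))) := fun h1 h2 h3 h4 =>
    tendsto_integral_of_dominated_convergence (fun x => ‖_‖)
      (fun k => (bdd (h1 k) (h2 k) h4).1) h4.norm
      (fun k => (ae_mem_U hn).mono fun x hx => by
        rw [norm_mul]
        exact mul_le_of_le_one_left (norm_nonneg _) (h2 k x hx))
      (ae_of_all _ fun x => (h3 _).mul_const _)
  have L1 := dom cM bM lM iS
  have L2 := ((dom cM bM lM iD).add (dom cN bN lN iWφ)).neg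
  simp only [one_mul, zero_mul, integral_zero, add_zero] at L1 L2
  refine tendsto_nhds_unique L1 (L2.congr fun k => ?_)
  rw [← integral_add (bdd (cM k) (bM k) iD) (bdd (cN k) (bN k) iWφ)]
  have h5 := hk k
  simp only [mul_assoc, ← Finset.mul_sum, add_mul] at h5
  exact h5.symm

end Pool.Agent.Lib.MP_a785f2_an.CX3
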