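import Pool.Agent.Lib.MP_a785f2_an.Example

/-! Radial profiles of a two-parameter family of examples, their derivatives and bounds. -/

open MeasureTheory Metric Filter Topology Set

namespace Pool.Agent.Lib.MP_a785f2_an.CX3

/-- Admissible exponents. -/
structure Par (n : ℕ) (β γ : ℝ) : Prop where
  n3 : 3 ≤ n
  b0 : 0 < β
  bg : 2 * β ≤ γ
  g1 : γ ≤ 1
  nb : 1 < n * β

noncomputable def tt (r : ℝ) : ℝ := 1 - Real.log r
noncomputable def pw (β t : ℝ) : ℝ := t ^ (-β)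
noncomputable def Qt (n : ℕ) (β γ t : ℝ) : ℝ :=
  pw β t ^ 2 + ((n : ℝ) - 1) * pw γ t ^ 2 + γ ^ 2 * pw γ t ^ 2 / t ^ 2
noncomputable def mt (n : ℕ) (β γ t : ℝ) : ℝ :=
  (β * pw β t ^ 2 + γ * (((n : ℝ) - 1) * pw γ t ^ 2) +
    (γ + 1) * (γ ^ 2 * pw γ t ^ 2 / t ^ 2)) / Qt n β γ t
noncomputable def Ft (n : ℕ) (β γ t : ℝ) : ℝ :=
  ((n : ℝ) - 1) - γ * (((n : ℝ) - 2) * mt n β γ t + γ + 1) / t ^ 2
noncomputable def At (n : ℕ) (β γ t : ℝ) : ℝ := pw γ t * Ft n β γ t / pw β t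
noncomputable def bt (n : ℕ) (β γ t : ℝ) : ℝ :=
  (pw β t * (((n : ℝ) - 2) * mt n β γ t + β) / (t * pw γ t) - γ * At n β γ t / t) / ((n : ℝ) - 1)

noncomputable def u0 (β r : ℝ) : ℝ := tt r * pw β (tt r) / (1 - β)
noncomputable def P (β r : ℝ) : ℝ := -pw β (tt r) / r ^ 2
noncomputable def dP (β r : ℝ) : ℝ := pw β (tt r) * (2 - β / tt r) / r ^ 3
noncomputable def H (γ r : ℝ) : ℝ := pw γ (tt r) / r
noncomputable def K (γ r : ℝ) : ℝ := pw γ (tt r) * (γ / tt r - 1) / r ^ 3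
noncomputable def dK (γ r : ℝ) : ℝ :=
  pw γ (tt r) * (γ * (γ + 1) / tt r ^ 2 - 4 * γ / tt r + 3) / r ^ 4
noncomputable def rho (n : ℕ) (β γ r : ℝ) : ℝ := √(Qt n β γ (tt r)) / r
noncomputable def w (n : ℕ) (β γ r : ℝ) : ℝ := rho n β γ r ^ (n - 2)
noncomputable def dw (n : ℕ) (β γ r : ℝ) : ℝ :=
  -(((n : ℝ) - 2) * (1 - mt n β γ (tt r) / tt r) * w n β γ r / r)
noncomputable def cb (n : ℕ) (β γ r : ℝ) : ℝ := bt n β γ (tt r) / r
noncomputable def ca (n : ℕ) (β γ r : ℝ) : ℝ := (At n β γ (tt r) - bt n β γ (tt r)) / r ^ 3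

variable {n : ℕ} {β γ r t : ℝ}

lemma one_le_tt (h0 : 0 < r) (h1 : r ≤ 1) : 1 ≤ tt r := one_le_t h0 h1

lemma tt_pos (h0 : 0 < r) (h1 : r ≤ 1) : 0 < tt r := by linarith [one_le_tt h0 h1]

lemma pw_pos (β : ℝ) (ht : 0 < t) : 0 < pw β t := Real.rpow_pos_of_pos ht _

lemma pw_add (β γ : ℝ) (ht : 0 < t) : pw (β + γ) t = pw β t * pw γ t := by
  unfold pw
  rw [neg_add, Real.rpow_add ht]

lemma pw_one (ht : 0 < t) : pw 1 t = 1 / t := by
  unfold pw
  rw [Real.rpow_neg ht.le, Real.rpow_one, one_div]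

lemma pw_anti (ht : 1 ≤ t) (h : β ≤ γ) : pw γ t ≤ pw β t :=
  Real.rpow_le_rpow_of_exponent_le ht (neg_le_neg h)

lemma pw_le_one (ht : 1 ≤ t) (h : 0 ≤ β) : pw β t ≤ 1 :=
  Real.rpow_le_one_of_one_le_of_nonpos ht (neg_nonpos.2 h)

lemma pw_pow (β : ℝ) (ht : 0 < t) (k : ℕ) : pw β t ^ k = pw (k * β) t := by
  unfold pw
  rw [← Real.rpow_natCast, ← Real.rpow_mul ht.le]
  congr 1
  ring

lemma hasDerivAt_tt (h0 : 0 < r) : HasDerivAt tt (-r⁻¹) r :=
  (Real.hasDerivAt_log h0.ne').const_sub 1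

lemma hasDerivAt_pw (β : ℝ) (h0 : 0 < r) (h1 : r ≤ 1) :
    HasDerivAt (fun r => pw β (tt r)) (β * pw β (tt r) / (tt r * r)) r := by
  have ht := tt_pos h0 h1
  have h2 := (hasDerivAt_tt h0).rpow_const (p := -β) (Or.inl ht.ne')
  refine HasDerivAt.congr_deriv h2 ?_
  rw [Real.rpow_sub_one ht.ne']
  unfold pw
  field_simp

lemma continuousAt_pw (β : ℝ) (ht : 0 < t) : ContinuousAt (pw β) t :=
  Real.continuousAt_rpow_const _ _ (Or.inl ht.ne')

lemma hasDerivAt_u0 (hb : β < 1) (h0 : 0 < r) (h1 : r ≤ 1) :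
    HasDerivAt (u0 β) (P β r * r) r := by
  have ht := tt_pos h0 h1
  have h2 := ((hasDerivAt_tt h0).fun_mul (hasDerivAt_pw β h0 h1)).div_const (1 - β)
  refine HasDerivAt.congr_deriv h2 ?_
  have : 1 - β ≠ 0 := by linarith
  unfold P
  field_simp
  ring

lemma hasDerivAt_P (β : ℝ) (h0 : 0 < r) (h1 : r ≤ 1) : HasDerivAt (P β) (dP β r) r := by
  have ht := tt_pos h0 h1
  have h2 := (hasDerivAt_pw β h0 h1).fun_neg.fun_div ((hasDerivAt_id' r).fun_pow 2)
    (by positivity)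
  refine HasDerivAt.congr_deriv h2 ?_
  unfold dP
  simp only [Nat.cast_ofNat, Nat.add_one_sub_one]
  field_simp
  ring

lemma hasDerivAt_H (γ : ℝ) (h0 : 0 < r) (h1 : r ≤ 1) : HasDerivAt (H γ) (K γ r * r) r := by
  have ht := tt_pos h0 h1
  have h2 := (hasDerivAt_pw γ h0 h1).fun_div (hasDerivAt_id' r) h0.ne'
  refine HasDerivAt.congr_deriv h2 ?_
  unfold K
  field_simp

lemma hasDerivAt_K (γ : ℝ) (h0 : 0 < r) (h1 : r ≤ 1) : HasDerivAt (K γ) (dK γ r) r := by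
  have ht := tt_pos h0 h1
  have h2 := ((hasDerivAt_const r γ).fun_div (hasDerivAt_tt h0) ht.ne').sub_const 1
  have h3 := ((hasDerivAt_pw γ h0 h1).fun_mul h2).fun_div ((hasDerivAt_id' r).fun_pow 3)
    (by positivity)
  refine HasDerivAt.congr_deriv h3 ?_
  unfold dK
  simp only [Nat.cast_ofNat, Nat.add_one_sub_one]
  field_simp
  ring

lemma n1_pos (hn : 2 ≤ n) : (0 : ℝ) < (n : ℝ) - 1 := by
  have : (2 : ℝ) ≤ n := by exact_mod_cast hn
  linarith

lemma Qt_pos (hn : 2 ≤ n) (β γ : ℝ) (ht : 0 < t) : 0 < Qt n β γ t := by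
  have := n1_pos hn
  have := pw_pos β ht
  unfold Qt
  positivity

lemma hasDerivAt_Q (hn : 2 ≤ n) (β γ : ℝ) (h0 : 0 < r) (h1 : r ≤ 1) :
    HasDerivAt (fun r => Qt n β γ (tt r))
      (2 * mt n β γ (tt r) * Qt n β γ (tt r) / (tt r * r)) r := by
  have ht := tt_pos h0 h1
  have hQ := Qt_pos hn β γ ht
  have h2 := (((hasDerivAt_pw β h0 h1).fun_pow 2).fun_add
    (((hasDerivAt_pw γ h0 h1).fun_pow 2).const_mul ((n : ℝ) - 1))).fun_add
    ((((hasDerivAt_pw γ h0 h1).fun_pow 2).const_mul (γ ^ 2)).fun_div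
      ((hasDerivAt_tt h0).fun_pow 2) (by positivity))
  refine HasDerivAt.congr_deriv h2 ?_
  unfold mt
  simp only [Nat.cast_ofNat, Nat.add_one_sub_one]
  field_simp
  ring

lemma rho_pos (hn : 2 ≤ n) (β γ : ℝ) (h0 : 0 < r) (h1 : r ≤ 1) : 0 < rho n β γ r := by
  have := Real.sqrt_pos.mpr (Qt_pos hn β γ (tt_pos h0 h1))
  unfold rho
  positivity

lemma hasDerivAt_rho (hn : 2 ≤ n) (β γ : ℝ) (h0 : 0 < r) (h1 : r ≤ 1) :
    HasDerivAt (rho n β γ) (-((1 - mt n β γ (tt r) / tt r) * rho n β γ r / r)) r := by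
  have ht := tt_pos h0 h1
  have hQ := Qt_pos hn β γ ht
  have hq := Real.sqrt_pos.mpr hQ
  have h4 := ((hasDerivAt_Q hn β γ h0 h1).sqrt hQ.ne').fun_div (hasDerivAt_id' r) h0.ne'
  refine HasDerivAt.congr_deriv h4 ?_
  unfold rho
  have hqq : Qt n β γ (tt r) = √(Qt n β γ (tt r)) * √(Qt n β γ (tt r)) :=
    (Real.mul_self_sqrt hQ.le).symm
  generalize √(Qt n β γ (tt r)) = q at *
  rw [hqq]
  field_simp
  ring

lemma hasDerivAt_w (hn : 3 ≤ n) (β γ : ℝ) (h0 : 0 < r) (h1 : r ≤ 1) :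
    HasDerivAt (w n β γ) (dw n β γ r) r := by
  have h2 := (hasDerivAt_rho (n := n) (by omega) β γ h0 h1).fun_pow (n - 2)
  refine HasDerivAt.congr_deriv h2 ?_
  unfold dw w
  obtain ⟨k, rfl⟩ := Nat.exists_eq_add_of_le' hn
  have e1 : k + 3 - 2 = k + 1 := by omega
  rw [e1]
  simp only [Nat.add_sub_cancel]
  push_cast
  ring

lemma continuousAt_mt (hn : 2 ≤ n) (β γ : ℝ) (ht : 0 < t) : ContinuousAt (mt n β γ) t := by
  have h1 := continuousAt_pw β ht
  have h2 := continuousAt_pw γ ht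
  have hQ0 := Qt_pos hn β γ ht
  have hQ : ContinuousAt (Qt n β γ) t := by
    unfold Qt
    fun_prop (disch := positivity)
  unfold mt
  fun_prop (disch := positivity)

lemma continuousAt_At (hn : 2 ≤ n) (β γ : ℝ) (ht : 0 < t) : ContinuousAt (At n β γ) t := by
  have h1 := continuousAt_pw β ht
  have h2 := continuousAt_pw γ ht
  have h3 := continuousAt_mt hn β γ ht
  have h4 := pw_pos β ht
  unfold At Ft
  fun_prop (disch := positivity)

lemma continuousAt_bt (hn : 2 ≤ n) (β γ : ℝ) (ht : 0 < t) : ContinuousAt (bt n β γ) t := by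
  have h1 := continuousAt_pw β ht
  have h2 := continuousAt_pw γ ht
  have h3 := continuousAt_mt hn β γ ht
  have h4 := pw_pos γ ht
  have h5 := continuousAt_At hn β γ ht
  have h6 := n1_pos hn
  unfold bt
  fun_prop (disch := positivity)

lemma continuousAt_dw (hn : 3 ≤ n) (β γ : ℝ) (h0 : 0 < r) (h1 : r ≤ 1) :
    ContinuousAt (dw n β γ) r := by
  have ht := tt_pos h0 h1
  have h2 := (hasDerivAt_tt h0).continuousAt
  have hm : ContinuousAt (fun r => mt n β γ (tt r)) r :=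
    (continuousAt_mt (by omega) β γ ht).comp h2
  have hw := (hasDerivAt_w hn β γ h0 h1).continuousAt
  unfold dw
  fun_prop (disch := positivity)

lemma continuousAt_dP (β : ℝ) (h0 : 0 < r) (h1 : r ≤ 1) : ContinuousAt (dP β) r := by
  have ht := tt_pos h0 h1
  have h2 := (hasDerivAt_tt h0).continuousAt
  have h3 := (hasDerivAt_pw β h0 h1).continuousAt
  unfold dP
  fun_prop (disch := positivity)

lemma continuousAt_dK (γ : ℝ) (h0 : 0 < r) (h1 : r ≤ 1) : ContinuousAt (dK γ) r := by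
  have ht := tt_pos h0 h1
  have h2 := (hasDerivAt_tt h0).continuousAt
  have h3 := (hasDerivAt_pw γ h0 h1).continuousAt
  unfold dK
  fun_prop (disch := positivity)

lemma continuousAt_cb (hn : 2 ≤ n) (β γ : ℝ) (h0 : 0 < r) (h1 : r ≤ 1) :
    ContinuousAt (cb n β γ) r := by
  have h3 : ContinuousAt (fun r => bt n β γ (tt r)) r :=
    (continuousAt_bt hn β γ (tt_pos h0 h1)).comp (hasDerivAt_tt h0).continuousAt
  unfold cb
  fun_prop (disch := positivity)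

lemma continuousAt_ca (hn : 2 ≤ n) (β γ : ℝ) (h0 : 0 < r) (h1 : r ≤ 1) :
    ContinuousAt (ca n β γ) r := by
  have h3 : ContinuousAt (fun r => bt n β γ (tt r)) r :=
    (continuousAt_bt hn β γ (tt_pos h0 h1)).comp (hasDerivAt_tt h0).continuousAt
  have h4 : ContinuousAt (fun r => At n β γ (tt r)) r :=
    (continuousAt_At hn β γ (tt_pos h0 h1)).comp (hasDerivAt_tt h0).continuousAt
  unfold ca
  fun_prop (disch := positivity)

lemma grad_sq (hn : 2 ≤ n) (β γ : ℝ) (h0 : 0 < r) (h1 : r ≤ 1) :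
    P β r ^ 2 * r ^ 2 + (n * H γ r ^ 2 + 2 * H γ r * K γ r * r ^ 2 + K γ r ^ 2 * r ^ 4) =
      rho n β γ r ^ 2 := by
  have ht := tt_pos h0 h1
  unfold rho
  rw [div_pow, Real.sq_sqrt (Qt_pos hn β γ ht).le]
  unfold P H K Qt
  field_simp
  ring

lemma eq0 (hn : 2 ≤ n) (β γ : ℝ) (h0 : 0 < r) (h1 : r ≤ 1) :
    (dw n β γ r * P β r + w n β γ r * dP β r) * r + n * (w n β γ r * P β r) =
      -(w n β γ r * (ca n β γ r * r ^ 2 * (H γ r + K γ r * r ^ 2) +
        cb n β γ r * (n * H γ r + K γ r * r ^ 2))) := by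
  have ht := tt_pos h0 h1
  have hn1 := n1_pos hn
  have he := pw_pos γ ht
  unfold dw ca cb bt P dP H K
  field_simp
  ring

lemma eq1 (β γ : ℝ) (h0 : 0 < r) (h1 : r ≤ 1) :
    (dw n β γ r * H γ r + w n β γ r * (K γ r * r)) / r +
      (dw n β γ r * K γ r + w n β γ r * dK γ r) * r + (n + 1) * (w n β γ r * K γ r) =
      w n β γ r * P β r * (ca n β γ r * r ^ 2 + cb n β γ r) := by
  have ht := tt_pos h0 h1
  have ha := pw_pos β ht
  have : ca n β γ r * r ^ 2 + cb n β γ r = At n β γ (tt r) / r := by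
    unfold ca cb; field_simp; ring
  rw [this]
  unfold dw At Ft P dK H K
  field_simp
  ring

/-! ### bounds -/

lemma Par.b2 (p : Par n β γ) : β ≤ 1 / 2 := by linarith [p.bg, p.g1]

lemma Par.g0 (p : Par n β γ) : 0 < γ := by linarith [p.bg, p.b0]

lemma Par.n2 (p : Par n β γ) : 2 ≤ n := by have := p.n3; omega

lemma Par.nr (p : Par n β γ) : (3 : ℝ) ≤ n := by exact_mod_cast p.n3

lemma e_le (p : Par n β γ) (ht : 1 ≤ t) : pw γ t ≤ pw β t * pw β t := by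
  rw [← pw_add β β (by linarith)]
  exact pw_anti ht (by linarith [p.bg])

lemma inv_le_e (p : Par n β γ) (ht : 1 ≤ t) : 1 ≤ t * pw γ t := by
  have h := pw_anti ht p.g1
  rw [pw_one (by linarith), div_le_iff₀ (by linarith)] at h
  linarith

lemma mt_mem (p : Par n β γ) (ht : 0 < t) : 0 ≤ mt n β γ t ∧ mt n β γ t ≤ 2 := by
  have hQ := Qt_pos p.n2 β γ ht
  have h1 := n1_pos p.n2
  have h2 := p.b0
  have h3 := p.g0
  have h4 := p.b2
  have h5 := p.g1
  have a1 : 0 ≤ pw β t ^ 2 := sq_nonneg _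
  have a2 : 0 ≤ ((n : ℝ) - 1) * pw γ t ^ 2 := by positivity
  have a3 : 0 ≤ γ ^ 2 * pw γ t ^ 2 / t ^ 2 := by positivity
  unfold mt
  refine ⟨by positivity, ?_⟩
  rw [div_le_iff₀ hQ]
  unfold Qt
  nlinarith

lemma abs_Ft_le (p : Par n β γ) (ht : 1 ≤ t) : |Ft n β γ t| ≤ 2 * n := by
  obtain ⟨m0, m2⟩ := mt_mem p (by linarith : 0 < t)
  have h1 := p.nr
  have h3 := p.g0
  have h5 := p.g1
  have a1 : 0 ≤ ((n : ℝ) - 2) * mt n β γ t := mul_nonneg (by linarith) m0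
  have a2 : ((n : ℝ) - 2) * mt n β γ t ≤ ((n : ℝ) - 2) * 2 :=
    mul_le_mul_of_nonneg_left m2 (by linarith)
  have a3 : 0 ≤ γ * (((n : ℝ) - 2) * mt n β γ t + γ + 1) / t ^ 2 := by positivity
  have a4 : γ * (((n : ℝ) - 2) * mt n β γ t + γ + 1) / t ^ 2 ≤ 2 * n := by
    refine (div_le_self (by positivity) (one_le_pow₀ ht)).trans ?_
    nlinarith
  unfold Ft
  rw [abs_le]
  constructor <;> linarith

lemma abs_At_le (p : Par n β γ) (ht : 1 ≤ t) : |At n β γ t| ≤ 2 * n * pw β t := by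
  have ha := pw_pos β (by linarith : 0 < t)
  have he := pw_pos γ (by linarith : 0 < t)
  unfold At
  rw [abs_div, abs_mul, abs_of_pos ha, abs_of_pos he, div_le_iff₀ ha]
  calc pw γ t * |Ft n β γ t| ≤ pw β t * pw β t * (2 * n) :=
        mul_le_mul (e_le p ht) (abs_Ft_le p ht) (abs_nonneg _) (by positivity)
    _ = _ := by ring

lemma abs_bt_aux (p : Par n β γ) (ht : 1 ≤ t) :
    |bt n β γ t| ≤ 2 * n * (pw β t / (t * pw γ t)) + |At n β γ t| / t := by
  obtain ⟨m0, m2⟩ := mt_mem p (by linarith : 0 < t)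
  have t0 : 0 < t := by linarith
  have ha := pw_pos β t0
  have he := pw_pos γ t0
  have h1 := p.nr
  have h2 := p.b0
  have h3 := p.g0
  have h4 := p.b2
  have h5 := p.g1
  have a1 : 0 ≤ ((n : ℝ) - 2) * mt n β γ t := mul_nonneg (by linarith) m0
  have a2 : ((n : ℝ) - 2) * mt n β γ t ≤ ((n : ℝ) - 2) * 2 :=
    mul_le_mul_of_nonneg_left m2 (by linarith)
  unfold bt
  rw [abs_div, abs_of_pos (n1_pos p.n2)]
  refine (div_le_self (abs_nonneg _) (by linarith)).trans ((abs_sub _ _).trans (add_le_add ?_ ?_))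
  · rw [abs_of_nonneg (by positivity), mul_comm (pw β t), mul_div_assoc]
    exact mul_le_mul_of_nonneg_right (by linarith) (by positivity)
  · rw [abs_div, abs_mul, abs_of_pos h3, abs_of_pos t0]
    exact div_le_div_of_nonneg_right (mul_le_of_le_one_left (abs_nonneg _) h5) t0.le

lemma abs_bt_le (p : Par n β γ) (ht : 1 ≤ t) : |bt n β γ t| ≤ 4 * n * pw β t := by
  have ha := pw_pos β (by linarith : 0 < t)
  have h1 := abs_bt_aux p ht
  have h2 : pw β t / (t * pw γ t) ≤ pw β t := div_le_self ha.le (inv_le_e p ht)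
  have h3 : |At n β γ t| / t ≤ 2 * n * pw β t :=
    (div_le_self (abs_nonneg _) ht).trans (abs_At_le p ht)
  have h4 := mul_le_mul_of_nonneg_left h2 (by positivity : (0 : ℝ) ≤ 2 * n)
  linarith

lemma abs_bt_le' (p : Par n β γ) (hg : 2 * γ ≤ β + 1) (ht : 1 ≤ t) :
    |bt n β γ t| ≤ 4 * n * pw γ t := by
  have t0 : 0 < t := by linarith
  have ha := pw_pos β t0
  have he := pw_pos γ t0
  have h0 : pw β t / t ≤ pw γ t * pw γ t := by
    rw [← pw_add γ γ t0, div_eq_mul_one_div, ← pw_one t0, ← pw_add β 1 t0]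
    exact pw_anti ht (by linarith)
  have h1 := abs_bt_aux p ht
  have h2 : pw β t / (t * pw γ t) ≤ pw γ t := by
    rw [← div_div, div_le_iff₀ he]
    exact h0
  have h3 : |At n β γ t| / t ≤ 2 * n * pw γ t := by
    calc |At n β γ t| / t ≤ 2 * n * pw β t / t :=
          div_le_div_of_nonneg_right (abs_At_le p ht) t0.le
      _ = 2 * n * (pw β t / t) := by ring
      _ ≤ 2 * n * (pw γ t * 1) := by
          refine mul_le_mul_of_nonneg_left (h0.trans ?_) (by positivity)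
          exact mul_le_mul_of_nonneg_left (pw_le_one ht p.g0.le) he.le
      _ = _ := by ring
  have h4 := mul_le_mul_of_nonneg_left h2 (by positivity : (0 : ℝ) ≤ 2 * n)
  linarith

lemma le_rho (p : Par n β γ) (h0 : 0 < r) (h1 : r ≤ 1) : pw β (tt r) / r ≤ rho n β γ r := by
  have ht := tt_pos h0 h1
  have h2 := n1_pos p.n2
  refine div_le_div_of_nonneg_right (Real.le_sqrt_of_sq_le ?_) h0.le
  have a2 : 0 ≤ ((n : ℝ) - 1) * pw γ (tt r) ^ 2 := by positivity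
  have a3 : 0 ≤ γ ^ 2 * pw γ (tt r) ^ 2 / tt r ^ 2 := by positivity
  unfold Qt
  linarith

lemma rho_le (p : Par n β γ) (h0 : 0 < r) (h1 : r ≤ 1) :
    rho n β γ r ≤ n * (pw β (tt r) / r) := by
  have ht := one_le_tt h0 h1
  have ha := pw_pos β (tt_pos h0 h1)
  have he := pw_pos γ (tt_pos h0 h1)
  have h2 := p.nr
  have h3 := p.g0
  have h4 : pw γ (tt r) ^ 2 ≤ pw β (tt r) ^ 2 :=
    pow_le_pow_left₀ he.le (pw_anti ht (by linarith [p.bg, p.b0])) 2
  have h5 : γ ^ 2 * pw γ (tt r) ^ 2 / tt r ^ 2 ≤ pw β (tt r) ^ 2 :=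
    (div_le_self (by positivity) (one_le_pow₀ ht)).trans
      ((mul_le_of_le_one_left (sq_nonneg _) (pow_le_one₀ h3.le p.g1)).trans h4)
  have h6 := mul_le_mul_of_nonneg_left h4 (n1_pos p.n2).le
  rw [← mul_div_assoc]
  refine div_le_div_of_nonneg_right (Real.sqrt_le_iff.2 ⟨by positivity, ?_⟩) h0.le
  have h7 : ((n : ℝ) + 1) * pw β (tt r) ^ 2 ≤ n ^ 2 * pw β (tt r) ^ 2 :=
    mul_le_mul_of_nonneg_right (by nlinarith) (sq_nonneg _)
  unfold Qt
  rw [mul_pow]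
  linarith

lemma u0_eq (h0 : 0 < r) (h1 : r ≤ 1) : u0 β r = tt r ^ (1 - β) / (1 - β) := by
  unfold u0 pw
  rw [sub_eq_add_neg 1 β, Real.rpow_add (tt_pos h0 h1), Real.rpow_one]

lemma abs_u0_le (p : Par n β γ) (h0 : 0 < r) (h1 : r ≤ 1) : |u0 β r| ≤ 2 * tt r := by
  have ht := one_le_tt h0 h1
  have ha := pw_pos β (tt_pos h0 h1)
  have h2 := p.b2
  have h3 := pw_le_one ht p.b0.le
  have h4 : 0 < 1 - β := by linarith
  unfold u0
  rw [abs_of_nonneg (by positivity), div_le_iff₀ h4]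
  nlinarith

lemma tendsto_u0 (p : Par n β γ) : Tendsto (u0 β) (𝓝[>] 0) atTop := by
  have h4 : 0 < 1 - β := by linarith [p.b2]
  have h2 : Tendsto (fun r => -Real.log r) (𝓝[>] 0) atTop :=
    tendsto_neg_atBot_atTop.comp Real.tendsto_log_nhdsGT_zero
  have h3 : Tendsto tt (𝓝[>] 0) atTop :=
    (tendsto_atTop_add_const_left _ 1 h2).congr fun r => (sub_eq_add_neg _ _).symm
  refine (((tendsto_rpow_atTop h4).comp h3).atTop_div_const h4).congr' ?_
  filter_upwards [Ioc_mem_nhdsGT one_pos] with r hr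
  exact (u0_eq hr.1 hr.2).symm

end Pool.Agent.Lib.MP_a785f2_an.CX3
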